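import Pool.Agent.Q50.MTC.Two

/-!
# The second inclusion: the logarithms are in the Mumford-Tate algebra
-/

open CategoryTheory AlgebraicGeometry TensorProduct

universe u w

set_option linter.unusedSectionVars false

namespace Pool.Agent.Q50.MTC

open Module Filter Topology Pool.Agent.H204R3.SP Pool.Agent.W516.DR
open Pool.Agent.H914 Pool.Agent.H914.VarClass Pool.Agent.H914.VarClass.Obj
  Pool.Agent.H914.WeilCohomology
open Pool.Agent.Y133.Half Pool.Agent.Y121.AH Pool.Agent.Q50.FP Pool.Agent.W516.KC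
open Pool.Agent.Q55 (GaloisAction SubAction Virtually TateConj tatePred)
open Pool.Agent.Q60.TD (SemisimpleAt rep act_one)
open Pool.Agent.Y121.AHS (extForm extEm toC toE)

variable {k : Type u} [Field k] {𝒱 : VarClass k} {ops : CycleOps 𝒱}
  {W E : WeilCohomology.{u, 0} ops} [Algebra W.K ℂ] {T : HodgeDecomposition W}
  {X Y : 𝒱.Obj} {n : ℕ} {Γ : Type w} [Group Γ] {G : GaloisAction E Γ}

/-- A class whose form is killed by the extended Mumford-Tate algebra is a Hodge class. -/
theorem hodge_of_mtp {c : W.H (pw X n)} {j : ℕ} (hj : (n + 1) * X.dim = 2 * j)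
    (h : ∀ Z ∈ mtp T X, Kills Z (frm W X n c)) : IsHodge T (pw X n) j c := by
  refine ⟨(frm_dg_iff (M := j) (j := j) (by rw [dim_pw]; omega)).1 fun v => ?_,
    hh_of_kills fun ν => h _ (mt_le (yy_mt ν))⟩
  have h1 := h _ dn_mtp v
  rw [dn, sum_sub_smul, sum_one, Fintype.card_fin] at h1
  have h2 : ((n + 1 : ℕ) : W.K) * X.dim = 2 * j := by
    rw [← Nat.cast_mul, hj]
    push_cast
    ring
  linear_combination h1 + frm W X n c v * h2

/-- The endomorphisms which commute with the extended Mumford-Tate algebra. -/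
theorem kills_of_comm {P : Module.End W.K (W.H X)} (hP : ∀ Z ∈ mtp T X, Z * P = P * Z)
    {Z : Module.End W.K (W.H X)} (hZ : Z ∈ mtp T X) : Kills Z (two ((prg W X).comp P)) := by
  rw [kills_two]
  intro u v
  rw [LinearMap.comp_apply, LinearMap.comp_apply]
  have h1 := mtp_skew hZ (P u) v
  have h2 : Z (P u) = P (Z u) := LinearMap.congr_fun (hP Z hZ) u
  rwa [h2] at h1

/-- An endomorphism whose form is a Tate form commutes with the action. -/
theorem comm_of_tform {P : Module.End E.K (E.H X)}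
    (h : TForm G X X.dim (two ((prg E X).comp P))) :
    ∃ Δ' : Subgroup Γ, Δ'.FiniteIndex ∧ ∀ g ∈ Δ', g ∈ (G.ρ X).dom → ∀ c,
      (G.ρ X).act g (P c) = P ((G.ρ X).act g c) := by
  obtain ⟨-, Δ, hΔ, h2⟩ := h
  refine ⟨Δ, hΔ, fun g hg hX c => ?_⟩
  rw [← sub_eq_zero]
  apply prg_nondeg
  intro v
  obtain ⟨v, rfl⟩ := ((G.ρ X).act g).surjective v
  rw [map_sub, LinearMap.sub_apply, sub_eq_zero]
  have h3 := h2 g hg hX ![c, v]
  have h4 := (G.isGalois X).tr_act g hX (P c * v)
  rw [two_apply, two_apply] at h3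
  change prg E X (P ((G.ρ X).act g c)) ((G.ρ X).act g v) = _ * prg E X (P c) v at h3
  rw [h3, prg_apply, ← map_mul, h4, prg_apply]

/-- The class on the `ℓ`-adic side which corresponds to an algebraic class. -/
theorem exists_corr [Algebra E.K ℂ] [Algebra W.K E.K] (A : ArtC W E)
    (hrat : ∀ r : W.K, ∃ q : ℚ, (q : W.K) = r) {c : W.H (pw X 1)}
    (hc : IsAlg W (pw X 1) X.dim c) :
    ∃ c' : E.H (pw X 1), Pool.Agent.Q55.IsTate G (pw X 1) X.dim c' ∧
      A.a _ c = A.c ^ X.dim • c' ∧
      ∀ C : Comparison (baseW W ℂ) (baseW E ℂ), Corr C c c' := by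
  have hc' : c ∈ Submodule.span W.K {a | ∃ z, (pw X 1).IsCyc X.dim z ∧ W.cl (pw X 1) z = a} := hc
  induction hc' using Submodule.span_induction with
  | mem x h =>
    obtain ⟨z, hz, rfl⟩ := h
    exact ⟨E.cl _ z, (tatePred G).cl hz, A.cl _ _ z hz, fun C => C.cyc hz⟩
  | zero => exact ⟨0, (tatePred G).zero, by rw [map_zero, smul_zero], fun C => Corr.zero C⟩
  | add a b h1 h2 ha hb =>
    obtain ⟨a', ha1, ha2, ha3⟩ := ha h1
    obtain ⟨b', hb1, hb2, hb3⟩ := hb h2
    exact ⟨a' + b', (tatePred G).add ha1 hb1, by rw [map_add, ha2, hb2, smul_add],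
      fun C => Corr.add C (ha3 C) (hb3 C)⟩
  | smul r a h1 ha =>
    obtain ⟨a', ha1, ha2, ha3⟩ := ha h1
    obtain ⟨q, rfl⟩ := hrat r
    refine ⟨(q : E.K) • a', (tatePred G).smul _ ha1, ?_, fun C => Corr.smul C (ha3 C) q⟩
    rw [A.smul, ha2, map_ratCast, smul_comm]

/-- The linear form `z ↦ ν (lm (c * σ z))`. -/
noncomputable def mu [Algebra E.K ℂ] [Algebra W.K E.K]
    (hrat : ∀ r : W.K, ∃ q : ℚ, (q : W.K) = r) (lm : ℂ →ₗ[E.K] E.K)
    (ν : E.K →ₗ[W.K] W.K) (c : ℂ) (σ : ℂ ≃+* ℂ) : ℂ →ₗ[W.K] W.K where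
  toFun z := ν (lm (c * σ z))
  map_add' x y := by rw [map_add, mul_add, map_add, map_add]
  map_smul' q z := by
    have h1 : c * σ (q • z) = (algebraMap W.K E.K q) • (c * σ z) := by
      rw [Algebra.smul_def, map_mul, aut_fix hrat, ← alg_tower (E := E) hrat, Algebra.smul_def]
      ring
    rw [h1, map_smul, smul_eq_mul, ← Algebra.smul_def, map_smul]
    rfl

/-- The endomorphisms of the forms of the Hodge classes. -/
theorem ext_tform [Algebra E.K ℂ] [Algebra W.K E.K] (A : ArtC W E)
    (hHC : ∀ c, IsHodge T (pw X 1) X.dim c → IsAlg W (pw X 1) X.dim c)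
    {P : Module.End W.K (W.H X)} (hP : ∀ Z ∈ mtp T X, Z * P = P * Z) :
    TForm G X X.dim (two ((prg E X).comp (A.ext P))) ∧
      ∀ C : Comparison (baseW W ℂ) (baseW E ℂ),
        LinearMap.trace (baseW E ℂ).K ((baseW E ℂ).H X) (theta C T X * bc ℂ (A.ext P)) =
          C.s (LinearMap.trace (baseW W ℂ).K ((baseW W ℂ).H X) (hh T X * bc ℂ P)) := by
  obtain ⟨c, hc⟩ := frm_surjective (W := W) (X := X) (n := 1) (two ((prg W X).comp P))
  have h1 : IsHodge T (pw X 1) X.dim c := hodge_of_mtp (by ring) fun Z hZ => by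
    rw [hc]
    exact kills_of_comm hP hZ
  obtain ⟨c', hc1, hc2, hc3⟩ := exists_corr (G := G) A T.rat (hHC c h1)
  obtain ⟨e₁, he₁⟩ := exists_end c'
  have he₀ : ∀ v, frm W X 1 c v = prg W X (P (v 0)) (v 1) := fun v => by
    rw [hc]
    rfl
  have h2 : e₁ = A.ext P := A.end_eq hc2 he₀ he₁
  subst h2
  refine ⟨?_, fun C => ep_trace C (hc3 C) he₀ he₁⟩
  have h3 := tform_of_tate (M := X.dim) (by rw [dim_pw]; ring) hc1
  have h4 : frm E X 1 c' = two ((prg E X).comp (A.ext P)) := MultilinearMap.ext fun v => by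
    rw [he₁]
    rfl
  rwa [h4] at h3

/-- **The components of the logarithms are elements of the extended Mumford-Tate algebra.** -/
theorem cm_mtp [Algebra E.K ℂ] [Algebra W.K E.K] (A : ArtC W E) (H : HodgeTate T G)
    (hHC : ∀ c, IsHodge T (pw X 1) X.dim c → IsAlg W (pw X 1) X.dim c)
    (hMT : ∀ c, IsHodge T (pw X 3) (2 * X.dim) c →
      Pool.Agent.Q55.IsTate G (pw X 3) (2 * X.dim) (A.a _ c))
    {D : Module.End E.K (E.H X)} (hD : D ∈ gal G X) {I : Finset (ℂ ≃+* ℂ)}
    {r : (ℂ ≃+* ℂ) → ℂ} (htr : ∀ P : Module.End E.K (E.H X),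
      (∃ Δ' : Subgroup Γ, Δ'.FiniteIndex ∧ ∀ g ∈ Δ', g ∈ (G.ρ X).dom → ∀ c,
        (G.ρ X).act g (P c) = P ((G.ρ X).act g c)) →
      algebraMap E.K ℂ (LinearMap.trace E.K (E.H X) (D * P)) =
        ∑ i ∈ I, r i * (show ℂ from LinearMap.trace (baseW E ℂ).K ((baseW E ℂ).H X)
          (theta (toC (H.cmp i)) T X * bc ℂ P))) (ν : E.K →ₗ[W.K] W.K) :
    cm A ν D ∈ mtp T X := by
  obtain ⟨lm, hlam⟩ := exists_retract' E.K
  have hDskew : IsSkew (prg E X) D := (kills_two _ _).1 (gal_kills (tform_prg (G := G)) hD)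
  have hskew := cm_skew A ν hDskew
  let θ : Module.End W.K (W.H X) := ∑ i ∈ I, yy T X (mu (E := E) T.rat lm ν (r i) i)
  have hθ : θ ∈ mt T X := Submodule.sum_mem _ fun i _ => yy_mt _
  refine core (mtp T X) mtp_semi mtp_br (prg W X) prg_nondeg hskew ?_ ?_ (mt_le hθ) ?_
  · -- the Casimir form
    let e : Fin 2 × Fin 2 ≃ Fin 4 := finProdFinEquiv
    obtain ⟨c, hc⟩ := frm_surjective (W := W) (X := X) (n := 3)
      ((cas (mtp T X) mtp_semi mtp_br (prg W X)).domDomCongr e)
    have h1 : IsHodge T (pw X 3) (2 * X.dim) c := hodge_of_mtp (by ring) fun Z hZ => by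
      rw [hc]
      refine (kills_reindex e).2 ?_
      exact Pool.Agent.W516.KC2.casimir_kills _ _ _ (mtp_skew hZ) fun A hA =>
        der_ideal (mtp T X) mtp_br hZ hA
    have h2 := gal_kills (tform_of_tate (M := 2 * X.dim) (by rw [dim_pw]; ring) (hMT c h1)) hD
    have h3 := cm_kills A ν h2
    rw [hc] at h3
    exact (kills_reindex e).1 h3
  · -- the commutant
    intro P hP
    have h1 := (ext_tform (G := G) A hHC hP).1
    have h2 := gal_kills h1 hD
    rw [kills_two] at h2
    have h3 : D * A.ext P = A.ext P * D := by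
      refine end_ext fun u v => ?_
      have h4 := h2 u v
      have h5 := hDskew (A.ext P u) v
      rw [LinearMap.comp_apply, LinearMap.comp_apply] at h4
      rw [Module.End.mul_apply, Module.End.mul_apply]
      linear_combination h5 - h4
    refine end_ext fun u v => ?_
    -- the form of `P`
    obtain ⟨c, hc⟩ := frm_surjective (W := W) (X := X) (n := 1) (two ((prg W X).comp P))
    have h4 := A.end_eq (c := c) (c' := (A.c ^ X.dim)⁻¹ • A.a _ c) (e₀ := P)
      (e₁ := A.ext P) (by rw [smul_smul, mul_inv_cancel₀ (A.cne _), one_smul])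
    have h5 : Kills (cm A ν D) (two ((prg W X).comp P)) := by
      rw [← hc]
      apply cm_kills
      obtain ⟨e₁, he₁⟩ := exists_end ((A.c ^ X.dim)⁻¹ • A.a _ c)
      have he₀ : ∀ v, frm W X 1 c v = prg W X (P (v 0)) (v 1) := fun v => by
        rw [hc]
        rfl
      have h6 : e₁ = A.ext P := A.end_eq (c := c)
        (by rw [smul_smul, mul_inv_cancel₀ (A.cne _), one_smul]) he₀ he₁
      subst h6
      have h7 : frm E X 1 (A.a _ c) = A.c ^ X.dim • two ((prg E X).comp (A.ext P)) := by
        have h8 : frm E X 1 ((A.c ^ X.dim)⁻¹ • A.a _ c) = two ((prg E X).comp (A.ext P)) :=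
          MultilinearMap.ext fun v => by
            rw [he₁]
            rfl
        rw [← h8, ← frm_smul, smul_smul, mul_inv_cancel₀ (A.cne _), one_smul]
      rw [h7]
      exact kills_smul _ (gal_kills h1 hD)
    rw [kills_two] at h5
    have h6 := h5 u v
    have h7 := hskew (P u) v
    rw [LinearMap.comp_apply, LinearMap.comp_apply] at h6
    rw [Module.End.mul_apply, Module.End.mul_apply]
    linear_combination h7 - h6
  · -- the traces
    intro e he
    obtain ⟨h1, h2⟩ := ext_tform (G := G) A hHC he.1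
    have h3 := htr (A.ext e) (comm_of_tform h1)
    rw [trace_cm_mul, ← hlam (LinearMap.trace E.K (E.H X) (D * A.ext e)), h3, map_sum, map_sum,
      Finset.sum_mul, map_sum]
    refine Finset.sum_congr rfl fun i _ => ?_
    rw [yy_trace']
    change ν (lm (r i * _)) = ν (lm (r i * i (trh T X e)))
    congr 3
    have h4 := h2 (toC (H.cmp i))
    refine Eq.trans h4 ?_
    change (H.cmp i).s (trh T X e) = i (trh T X e)
    rw [H.semi]

/-- An element of the extended Mumford-Tate algebra which kills the orientation. -/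
theorem mt_of_mtp {Z : Module.End W.K (W.H X)} (hZ : Z ∈ mtp T X)
    (h0 : ∀ x, W.tr X (Z x) = 0) : Z ∈ mt T X := by
  obtain ⟨A, hA, r, rfl⟩ := mem_mtp.1 hZ
  have h3 : ∀ v : Fin 1 → W.H X, frm W X 0 1 v = W.tr X (v 0) := by
    intro v
    rw [frm_apply, one_mul, mpr_apply, List.ofFn_succ, List.ofFn_zero, List.prod_singleton]
    exact congrArg _ (W.map_id X (v 0))
  have h1 : ∀ x, W.tr X (A x) = 0 := by
    intro x
    have h2 := hA 0 (frm W X 0 1) (fun ν => yy_kills ν (by
      have h4 := derivation_one ((hh_drv T).mul (pw X 0))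
      exact h4)) (fun _ => x)
    rw [Fin.sum_univ_one] at h2
    rw [h3, Function.update_self] at h2
    exact h2
  have h2 : ∀ x, r * X.dim * W.tr X x = 0 := by
    intro x
    have h3 := h0 x
    rw [LinearMap.add_apply, map_add, h1, zero_add, LinearMap.smul_apply, map_smul, dn,
      LinearMap.sub_apply, map_sub, dg_drv.tr, LinearMap.smul_apply, map_smul,
      Module.End.one_apply, smul_eq_mul, smul_eq_mul] at h3
    linear_combination h3
  by_cases hr : r = 0
  · rw [hr, zero_smul, add_zero]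
    exact hA
  · have h3 : dn W X = 0 := by
      by_cases hd : X.dim = 0
      · refine LinearMap.ext fun x => ?_
        refine dg_ind (p := fun x => dn W X x = (0 : Module.End W.K (W.H X)) x) ?_ ?_ x
        · intro i x hx
          by_cases hi : i = 0
          · subst hi
            rw [dn, LinearMap.sub_apply, dg_of hx, hd, LinearMap.smul_apply, Nat.cast_zero,
              zero_smul, zero_smul, sub_self]
            rfl
          · rw [W.gr_eq_bot X i (by omega), Submodule.mem_bot] at hx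
            rw [hx, map_zero, map_zero]
        · intro a b ha hb
          rw [map_add, ha, hb, map_add]
      · -- the cohomology is zero
        have h4 : ∀ x, W.tr X x = 0 := by
          intro x
          have h5 := h2 x
          have h6 : r * (X.dim : W.K) ≠ 0 := mul_ne_zero hr (Nat.cast_ne_zero.2 hd)
          exact (mul_eq_zero.1 h5).resolve_left h6
        refine LinearMap.ext fun x => ?_
        have h5 : ∀ x : W.H X, x = 0 := fun x => W.nondeg x fun b => h4 _
        rw [h5 x, map_zero, map_zero]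
    rw [h3, smul_zero, add_zero]
    exact hA

/-- The elements of the Lie algebra of the Tate classes kill the orientation. -/
theorem gal_tr {D : Module.End E.K (E.H X)} (hD : D ∈ gal G X) (x : E.H X) :
    E.tr X (D x) = 0 := by
  have hT : TForm G X X.dim (frm E X 0 1) := by
    refine tform_of_tate (n := 0) (j := 0) (by rw [dim_pw]; ring) ?_
    have h1 := (tatePred G).cl (X := pw X 0) (j := 0) (z := (pw X 0).V.fundCycle)
      (SmVar.fundCycle_mem _)
    rw [E.cl_fund] at h1
    exact h1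
  have h2 := gal_kills hT hD (fun _ => x)
  rw [Fin.sum_univ_one] at h2
  have h3 : ∀ v : Fin 1 → E.H X, frm E X 0 1 v = E.tr X (v 0) := by
    intro v
    rw [frm_apply, one_mul, mpr_apply, List.ofFn_succ, List.ofFn_zero, List.prod_singleton]
    exact congrArg _ (E.map_id X (v 0))
  rw [h3, Function.update_self] at h2
  exact h2

/-- The components of the elements of the Lie algebra. -/
theorem cm_mt [Algebra W.K E.K] (A : ArtC W E) {D : Module.End E.K (E.H X)} (hD : D ∈ gal G X)
    {ν : E.K →ₗ[W.K] W.K} (h : cm A ν D ∈ mtp T X) : cm A ν D ∈ mt T X := by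
  refine mt_of_mtp h fun x => ?_
  rw [form_cm A ν D (f := W.tr X) (f' := E.tr X) (A.cne X.dim) (fun x => A.tr X x), gal_tr hD,
    mul_zero, map_zero]

end Pool.Agent.Q50.MTC
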