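import Pool.Agent.Q50.MTC.Defs
import Pool.Agent.Q50.FP.Grp
import Pool.Agent.Q60.TD.GSS

/-!
# Logarithms as limits
-/

open CategoryTheory AlgebraicGeometry

universe u w

set_option linter.unusedSectionVars false

namespace Pool.Agent.Q50.MTC

open Filter Topology Module Pool.Agent.Q50.FP

noncomputable section

section coord

variable {ℓ : ℕ} [hℓ : Fact ℓ.Prime] {n : ℕ}

/-- The main lemma, with the limits. -/
theorem log_forms2 {T : Module.End ℚ_[ℓ] (Fin n → ℚ_[ℓ])} (hT : NearId ℓ T) {c : ℚ_[ℓ]}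
    (hc : ‖c - 1‖ ≤ eps ℓ) {Y : Module.End ℚ_[ℓ] (Fin n → ℚ_[ℓ])} {y : ℚ_[ℓ]} {f : ℕ → ℕ}
    (hf : StrictMono f)
    (hY : ∀ v, Tendsto (fun k => ((ℓ : ℚ_[ℓ]) ^ f k)⁻¹ • ((T ^ (ℓ ^ f k)) v - v)) atTop (𝓝 (Y v)))
    (hy : Tendsto (fun k => ((ℓ : ℚ_[ℓ]) ^ f k)⁻¹ * (c ^ (ℓ ^ f k) - 1)) atTop (𝓝 y))
    (κ : Type) [Fintype κ] [DecidableEq κ]
    (φ : MultilinearMap ℚ_[ℓ] (fun _ : κ => Fin n → ℚ_[ℓ]) ℚ_[ℓ]) (M : ℕ) :
    ((∃ N, 0 < N ∧ ∀ v, (c ^ M) ^ N * φ (fun j => (T ^ N) (v j)) = φ v) →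
      ∀ v, ∑ j, φ (Function.update v j (Y (v j))) + M * y * φ v = 0) ∧
    ((∀ v, ∑ j, φ (Function.update v j (Y (v j))) + M * y * φ v = 0) →
      ∀ v, c ^ M * φ (fun j => T (v j)) = φ v) := by
  have hcM : ∀ M : ℕ, ‖c ^ M - 1‖ ≤ eps ℓ := by
    intro M
    have h1 := (near_smul hc).pow M 1
    have h2 : ((c • (1 : Module.End ℚ_[ℓ] ℚ_[ℓ])) ^ M) 1 = c ^ M := by
      rw [smul_pow, one_pow, LinearMap.smul_apply, Module.End.one_apply, smul_eq_mul, mul_one]
    rw [h2, norm_one, mul_one] at h1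
    exact h1
  have hne : ∀ k, ((ℓ : ℚ_[ℓ]) ^ f k) ≠ 0 := fun k =>
    pow_ne_zero _ (by exact_mod_cast hℓ.out.ne_zero)
  have hzero : Tendsto (fun k => ((ℓ : ℚ_[ℓ]) ^ f k)) atTop (𝓝 0) := by
    have h1 : Tendsto (fun k : ℕ => (ℓ : ℚ_[ℓ]) ^ k) atTop (𝓝 0) := by
      apply tendsto_pow_atTop_nhds_zero_of_norm_lt_one
      rw [norm_ell]
      exact ell_lt_one
    exact h1.comp hf.tendsto_atTop
  -- the derivative
  have hder : ∀ v, Tendsto (fun k => ((ℓ : ℚ_[ℓ]) ^ f k)⁻¹ *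
      (act (T ^ (ℓ ^ f k)) ((c ^ M) ^ (ℓ ^ f k)) φ - φ) v) atTop
      (𝓝 (∑ j, φ (Function.update v j (Y (v j))) + M * y * φ v)) := by
    intro v
    have h1 := deriv_form φ hf hY v
    have h2 := deriv_pow hf hy M
    have h3 : Tendsto (fun k => (c ^ M) ^ (ℓ ^ f k)) atTop (𝓝 1) := by
      have h1 := (hzero.mul h2).add_const 1
      rw [zero_mul, zero_add] at h1
      refine h1.congr fun k => ?_
      rw [← mul_assoc, mul_inv_cancel₀ (hne k), one_mul]
      ring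
    have h4 := (h3.mul h1).add (h2.mul_const (φ v))
    rw [one_mul] at h4
    refine h4.congr fun k => ?_
    change _ = ((ℓ : ℚ_[ℓ]) ^ f k)⁻¹ * (act (T ^ (ℓ ^ f k)) ((c ^ M) ^ (ℓ ^ f k)) φ v - φ v)
    rw [act_apply]
    ring
  constructor
  · rintro ⟨N, hN, h⟩
    have h1 : act T (c ^ M) φ = φ := by
      refine act_of_pow hT (hcM M) hN (MultilinearMap.ext fun v => ?_)
      rw [act_apply]
      exact h v
    intro v
    refine tendsto_nhds_unique (hder v) ?_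
    have h2 : ∀ k, act (T ^ k) ((c ^ M) ^ k) φ = φ := by
      intro k
      rw [← act_pow]
      induction k with
      | zero => rw [pow_zero]; rfl
      | succ k ih => rw [pow_succ, Module.End.mul_apply, h1, ih]
    refine tendsto_const_nhds.congr fun k => ?_
    rw [h2, sub_self]
    simp
  · intro h
    have h1 : Tendsto (fun k => ((ℓ : ℚ_[ℓ]) ^ f k)⁻¹ •
        co (act (T ^ (ℓ ^ f k)) ((c ^ M) ^ (ℓ ^ f k)) φ - φ)) atTop (𝓝 0) := by
      rw [tendsto_pi_nhds]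
      intro r
      have h2 := hder (fun j => sb ℓ (r j))
      rw [h] at h2
      exact h2
    have h2 := h1.norm
    have h3 : ∀ k, ‖((ℓ : ℚ_[ℓ]) ^ f k)⁻¹ •
        co (act (T ^ (ℓ ^ f k)) ((c ^ M) ^ (ℓ ^ f k)) φ - φ)‖ = ‖co (act T (c ^ M) φ - φ)‖ := by
      intro k
      rw [norm_smul, norm_act_pow hT (hcM M), ← mul_assoc, norm_ell_pow_inv, one_mul]
    simp only [h3, norm_zero] at h2
    have h4 := tendsto_nhds_unique h2 tendsto_const_nhds
    have h5 : act T (c ^ M) φ = φ := by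
      have h6 := norm_eq_zero.1 h4.symm
      rw [map_sub, sub_eq_zero] at h6
      exact co_inj h6
    intro v
    rw [← act_apply, h5]

/-- The logarithms in coordinates. -/
theorem log_forms3 {T : Module.End ℚ_[ℓ] (Fin n → ℚ_[ℓ])} (hT : NearId ℓ T) {x : ℚ_[ℓ]}
    (hx : ‖x - 1‖ ≤ eps ℓ) :
    ∃ (Y : Module.End ℚ_[ℓ] (Fin n → ℚ_[ℓ])) (y : ℚ_[ℓ]) (f : ℕ → ℕ), StrictMono f ∧
      (∀ v, Tendsto (fun k => ((ℓ : ℚ_[ℓ]) ^ f k)⁻¹ • ((T ^ (ℓ ^ f k)) v - v)) atTop (𝓝 (Y v))) ∧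
      Tendsto (fun k => ((ℓ : ℚ_[ℓ]) ^ f k)⁻¹ * (x ^ (ℓ ^ f k) - 1)) atTop (𝓝 y) ∧
      ∀ (κ : Type) [Fintype κ] [DecidableEq κ]
        (φ : MultilinearMap ℚ_[ℓ] (fun _ : κ => Fin n → ℚ_[ℓ]) ℚ_[ℓ]) (M : ℕ),
        ((∃ N, 0 < N ∧ ∀ v, φ (fun j => (T ^ N) (v j)) = (x ^ M) ^ N * φ v) →
          ∀ v, ∑ j, φ (Function.update v j (Y (v j))) = M * y * φ v) ∧
        ((∀ v, ∑ j, φ (Function.update v j (Y (v j))) = M * y * φ v) →
          ∀ v, φ (fun j => T (v j)) = x ^ M * φ v) := by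
  have h0 : x ≠ 0 := by
    intro h
    have h1 := norm_eq_one_of_near hx
    rw [h, norm_zero] at h1
    exact zero_ne_one h1
  obtain ⟨Y, y, f, hf, hY, hy⟩ := exists_log hT (near_inv hx)
  have hne : ∀ k, ((ℓ : ℚ_[ℓ]) ^ f k) ≠ 0 := fun k =>
    pow_ne_zero _ (by exact_mod_cast hℓ.out.ne_zero)
  have hzero : Tendsto (fun k => ((ℓ : ℚ_[ℓ]) ^ f k)) atTop (𝓝 0) := by
    have h1 : Tendsto (fun k : ℕ => (ℓ : ℚ_[ℓ]) ^ k) atTop (𝓝 0) := by
      apply tendsto_pow_atTop_nhds_zero_of_norm_lt_one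
      rw [norm_ell]
      exact ell_lt_one
    exact h1.comp hf.tendsto_atTop
  -- the powers of the inverse tend to one
  have hone : Tendsto (fun k => (x⁻¹) ^ (ℓ ^ f k)) atTop (𝓝 1) := by
    have h1 := (hzero.mul hy).add_const 1
    rw [zero_mul, zero_add] at h1
    refine h1.congr fun k => ?_
    rw [← mul_assoc, mul_inv_cancel₀ (hne k), one_mul]
    ring
  have hone' : Tendsto (fun k => x ^ (ℓ ^ f k)) atTop (𝓝 1) := by
    have h1 := hone.inv₀ one_ne_zero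
    rw [inv_one] at h1
    refine h1.congr fun k => ?_
    rw [inv_pow, inv_inv]
  have hlim : Tendsto (fun k => ((ℓ : ℚ_[ℓ]) ^ f k)⁻¹ * (x ^ (ℓ ^ f k) - 1)) atTop (𝓝 (-y)) := by
    have h1 := (hone'.mul hy).neg
    rw [one_mul] at h1
    refine h1.congr fun k => ?_
    have h2 : x ^ (ℓ ^ f k) * (x⁻¹) ^ (ℓ ^ f k) = 1 := by
      rw [← mul_pow, mul_inv_cancel₀ h0, one_pow]
    linear_combination (-((ℓ : ℚ_[ℓ]) ^ f k)⁻¹) * h2
  refine ⟨Y, -y, f, hf, hY, hlim, fun κ _ _ φ M => ⟨?_, ?_⟩⟩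
  · rintro ⟨N, hN, h1⟩ v
    have h2 := (log_forms2 hT (near_inv hx) hf hY hy κ φ M).1 ⟨N, hN, fun v => by
      rw [h1, inv_pow, inv_pow, ← mul_assoc, inv_mul_cancel₀ (pow_ne_zero _ (pow_ne_zero _ h0)),
        one_mul]⟩ v
    linear_combination h2
  · intro h1 v
    have h2 := (log_forms2 hT (near_inv hx) hf hY hy κ φ M).2 (fun v => by rw [h1]; ring) v
    rw [← h2, inv_pow, ← mul_assoc, mul_inv_cancel₀ (pow_ne_zero _ h0), one_mul]

end coord

section rep

variable {ℓ : ℕ} [hℓ : Fact ℓ.Prime] {V : Type*} [AddCommGroup V] [Module ℚ_[ℓ] V]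
  [FiniteDimensional ℚ_[ℓ] V] {Γ : Type*} [Group Γ] [TopologicalSpace Γ] [IsTopologicalGroup Γ]
  [CompactSpace Γ]

/-- **Logarithms.** -/
theorem exists_logs2 (ρ : Γ →* Module.End ℚ_[ℓ] V) (χ : Γ →* ℚ_[ℓ])
    (hρ : ∀ (v : V) (f : Dual ℚ_[ℓ] V), Continuous fun s => f (ρ s v)) (hχ : Continuous χ) :
    ∃ Δ : Subgroup Γ, Δ.FiniteIndex ∧ ∀ s ∈ Δ,
      ∃ (Y : Module.End ℚ_[ℓ] V) (y : ℚ_[ℓ]) (f : ℕ → ℕ), StrictMono f ∧
        (∀ (v : V) (g : Dual ℚ_[ℓ] V), Tendsto (fun k => ((ℓ : ℚ_[ℓ]) ^ f k)⁻¹ *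
          (g (ρ (s ^ (ℓ ^ f k)) v) - g v)) atTop (𝓝 (g (Y v)))) ∧
        Tendsto (fun k => ((ℓ : ℚ_[ℓ]) ^ f k)⁻¹ * (χ (s ^ (ℓ ^ f k)) - 1)) atTop (𝓝 y) ∧
        ∀ (κ : Type) [Fintype κ] [DecidableEq κ]
          (φ : MultilinearMap ℚ_[ℓ] (fun _ : κ => V) ℚ_[ℓ]) (M : ℕ),
        ((∃ N, 0 < N ∧ ∀ v, φ (fun j => ρ (s ^ N) (v j)) = χ (s ^ N) ^ M * φ v) →
          ∀ v, ∑ j, φ (Function.update v j (Y (v j))) = M * y * φ v) ∧
        ((∀ v, ∑ j, φ (Function.update v j (Y (v j))) = M * y * φ v) →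
          ∀ v, φ (fun j => ρ s (v j)) = χ s ^ M * φ v) := by
  let b := finBasis ℚ_[ℓ] V
  let Δ : Subgroup Γ :=
    { carrier := {s | (NearId ℓ (inCo b (ρ s)) ∧ NearId ℓ (inCo b (ρ s⁻¹))) ∧
        ‖χ s - 1‖ ≤ eps ℓ ∧ ‖χ s⁻¹ - 1‖ ≤ eps ℓ}
      one_mem' := by
        refine ⟨⟨?_, ?_⟩, ?_, ?_⟩
        · rw [map_one, inCo_one]; exact NearId.one
        · rw [inv_one, map_one, inCo_one]; exact NearId.one
        · rw [map_one, sub_self, norm_zero]; exact eps_pos.le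
        · rw [inv_one, map_one, sub_self, norm_zero]; exact eps_pos.le
      mul_mem' := by
        rintro s t ⟨⟨h1, h2⟩, h3, h4⟩ ⟨⟨h5, h6⟩, h7, h8⟩
        have key : ∀ {x y : ℚ_[ℓ]}, ‖x - 1‖ ≤ eps ℓ → ‖y - 1‖ ≤ eps ℓ → ‖x * y - 1‖ ≤ eps ℓ := by
          intro x y hx hy
          have h9 : x * y - 1 = x * (y - 1) + (x - 1) := by ring
          rw [h9]
          refine (IsUltrametricDist.norm_add_le_max _ _).trans (max_le ?_ hx)
          rw [norm_mul, norm_eq_one_of_near hx, one_mul]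
          exact hy
        refine ⟨⟨?_, ?_⟩, ?_, ?_⟩
        · rw [map_mul, inCo_mul]; exact h1.mul h5
        · rw [mul_inv_rev, map_mul, inCo_mul]; exact h6.mul h2
        · rw [map_mul]; exact key h3 h7
        · rw [mul_inv_rev, map_mul]; exact key h8 h4
      inv_mem' := by
        rintro s ⟨⟨h1, h2⟩, h3, h4⟩
        exact ⟨⟨h2, by rwa [inv_inv]⟩, h4, by rwa [inv_inv]⟩ }
  have hopen : IsOpen (Δ : Set Γ) := by
    have h1 := isOpen_near b ρ hρ
    have h3 : IsOpen {s | ‖χ s - 1‖ ≤ eps ℓ} := by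
      have h4 := (IsUltrametricDist.isOpen_closedBall (0 : ℚ_[ℓ]) (eps_pos (ℓ := ℓ)).ne').preimage
        (hχ.sub (continuous_const : Continuous fun _ : Γ => (1 : ℚ_[ℓ])))
      convert! h4 using 1
      ext s
      simp
    exact (h1.inter (h1.preimage continuous_inv)).inter (h3.inter (h3.preimage continuous_inv))
  have hfin : Δ.FiniteIndex := by
    have : Finite (Γ ⧸ Δ) := Subgroup.quotient_finite_of_isOpen Δ hopen
    exact Subgroup.finiteIndex_of_finite_quotient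
  refine ⟨Δ, hfin, fun s hs => ?_⟩
  obtain ⟨⟨h1, -⟩, h2, -⟩ := hs
  obtain ⟨Y, y, f, hf, hY, hy, h⟩ := log_forms3 h1 h2
  let Y' : Module.End ℚ_[ℓ] V := b.equivFun.symm.toLinearMap ∘ₗ Y ∘ₗ b.equivFun.toLinearMap
  refine ⟨Y', y, f, hf, fun v g => ?_, ?_, fun κ _ _ φ M => ?_⟩
  · -- the limit
    let g' : (Fin (finrank ℚ_[ℓ] V) → ℚ_[ℓ]) →ₗ[ℚ_[ℓ]] ℚ_[ℓ] := g ∘ₗ b.equivFun.symm.toLinearMap
    have hg' : Continuous g' := LinearMap.continuous_of_finiteDimensional g'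
    have h3 := (hg'.tendsto _).comp (hY (b.equivFun v))
    have h4 : g' (Y (b.equivFun v)) = g (Y' v) := rfl
    rw [h4] at h3
    refine h3.congr fun k => ?_
    change g' (((ℓ : ℚ_[ℓ]) ^ f k)⁻¹ • ((inCo b (ρ s) ^ (ℓ ^ f k)) (b.equivFun v) -
      b.equivFun v)) = _
    rw [map_smul, map_sub, smul_eq_mul, ← inCo_pow, ← map_pow]
    congr 2
    · change g (b.equivFun.symm (b.equivFun (ρ (s ^ (ℓ ^ f k))
        (b.equivFun.symm (b.equivFun v))))) = _
      rw [LinearEquiv.symm_apply_apply, LinearEquiv.symm_apply_apply]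
    · change g (b.equivFun.symm (b.equivFun v)) = _
      rw [LinearEquiv.symm_apply_apply]
  · refine hy.congr fun k => ?_
    rw [map_pow]
  have h3 := h κ (φ.compLinearMap fun _ => b.equivFun.symm.toLinearMap) M
  have h4 : ∀ (T : Module.End ℚ_[ℓ] V) (v : κ → Fin _ → ℚ_[ℓ]),
      (φ.compLinearMap fun _ => b.equivFun.symm.toLinearMap) (fun j => inCo b T (v j)) =
        φ (fun j => T (b.equivFun.symm (v j))) := by
    intro T v
    rw [MultilinearMap.compLinearMap_apply]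
    congr 1
    funext j
    exact LinearEquiv.symm_apply_apply _ _
  have h5 : ∀ (v : κ → V), (∑ j, (φ.compLinearMap fun _ => b.equivFun.symm.toLinearMap)
      (Function.update (fun j => b.equivFun (v j)) j (Y (b.equivFun (v j)))) =
      ∑ j, φ (Function.update v j (Y' (v j)))) := by
    intro v
    refine Finset.sum_congr rfl fun j _ => ?_
    rw [MultilinearMap.compLinearMap_apply]
    congr 1
    funext i
    by_cases hij : i = j
    · subst hij
      rw [Function.update_self, Function.update_self]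
      rfl
    · rw [Function.update_of_ne hij, Function.update_of_ne hij]
      exact LinearEquiv.symm_apply_apply _ _
  have h6 : ∀ (v : κ → V), (φ.compLinearMap fun _ => b.equivFun.symm.toLinearMap)
      (fun j => b.equivFun (v j)) = φ v := by
    intro v
    rw [MultilinearMap.compLinearMap_apply]
    congr 1
    funext j
    exact LinearEquiv.symm_apply_apply _ _
  constructor
  · rintro ⟨N, hN, h7⟩ v
    have h8 := h3.1 ⟨N, hN, fun v => by
      rw [← inCo_pow, h4, ← map_pow, h7, map_pow, ← pow_mul, ← pow_mul, mul_comm N M]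
      rfl⟩ (fun j => b.equivFun (v j))
    rw [h5, h6] at h8
    exact h8
  · intro h7 v
    have h8 := h3.2 (fun w => by
      have h9 := h7 (fun j => b.equivFun.symm (w j))
      rw [← h5, ← h6] at h9
      simp only [LinearEquiv.apply_symm_apply] at h9
      exact h9) (fun j => b.equivFun (v j))
    rw [h4, h6] at h8
    simp only [LinearEquiv.symm_apply_apply] at h8
    exact h8

end rep

section abs

variable {ℓ : ℕ} [hℓ : Fact ℓ.Prime] {K V : Type*} [Field K] [AddCommGroup V] [Module K V]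
  [FiniteDimensional K V] {Γ : Type*} [Group Γ] [TopologicalSpace Γ] [IsTopologicalGroup Γ]
  [CompactSpace Γ]

/-- The property of the logarithms with respect to the forms. -/
def LogFor (ρ : Γ →* Module.End K V) (χ : Γ →* K) (s : Γ) (Y : Module.End K V) (y : K) : Prop :=
  ∀ (κ : Type) [Fintype κ] [DecidableEq κ] (φ : MultilinearMap K (fun _ : κ => V) K) (M : ℕ),
    ((∃ N, 0 < N ∧ ∀ v, φ (fun j => ρ (s ^ N) (v j)) = χ (s ^ N) ^ M * φ v) →
      ∀ v, ∑ j, φ (Function.update v j (Y (v j))) = M * y * φ v) ∧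
    ((∀ v, ∑ j, φ (Function.update v j (Y (v j))) = M * y * φ v) →
      ∀ v, φ (fun j => ρ s (v j)) = χ s ^ M * φ v)

theorem exists_logs_of2 (e : K ≃+* ℚ_[ℓ]) (ρ : Γ →* Module.End K V) (χ : Γ →* K)
    (hρ : ∀ (v : V) (f : Dual K V), Continuous fun s => e (f (ρ s v)))
    (hχ : Continuous fun s => e (χ s)) :
    ∃ Δ : Subgroup Γ, Δ.FiniteIndex ∧ ∀ s ∈ Δ,
      ∃ (Y : Module.End K V) (y : K) (f : ℕ → ℕ), StrictMono f ∧
        (∀ (v : V) (g : Dual K V), Tendsto (fun k => ((ℓ : ℚ_[ℓ]) ^ f k)⁻¹ *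
          e (g (ρ (s ^ (ℓ ^ f k)) v) - g v)) atTop (𝓝 (e (g (Y v))))) ∧
        Tendsto (fun k => ((ℓ : ℚ_[ℓ]) ^ f k)⁻¹ * e (χ (s ^ (ℓ ^ f k)) - 1)) atTop (𝓝 (e y)) ∧
        LogFor ρ χ s Y y := by
  let _ : Module ℚ_[ℓ] V := Module.compHom V (e.symm : ℚ_[ℓ] →+* K)
  have hsm : ∀ (r : ℚ_[ℓ]) (v : V), r • v = e.symm r • v := fun r v => rfl
  have hsm' : ∀ (r : K) (v : V), e r • v = r • v := fun r v => by
    rw [hsm, e.symm_apply_apply]
  have hfd : FiniteDimensional ℚ_[ℓ] V :=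
    Module.Finite.of_basis ((Module.finBasis K V).mapCoeffs e hsm')
  let toQ : Module.End K V → Module.End ℚ_[ℓ] V := fun A =>
    { toFun := A
      map_add' := map_add A
      map_smul' := fun r v => by
        rw [hsm, map_smul]
        rfl }
  let ofQ : Module.End ℚ_[ℓ] V → Module.End K V := fun A =>
    { toFun := A
      map_add' := map_add A
      map_smul' := fun r v => by
        rw [← hsm', map_smul, hsm']
        rfl }
  let ρ' : Γ →* Module.End ℚ_[ℓ] V :=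
    { toFun := fun s => toQ (ρ s)
      map_one' := by
        refine LinearMap.ext fun v => ?_
        change ρ 1 v = v
        rw [map_one]
        rfl
      map_mul' := fun s t => by
        refine LinearMap.ext fun v => ?_
        change ρ (s * t) v = ρ s (ρ t v)
        rw [map_mul]
        rfl }
  let χ' : Γ →* ℚ_[ℓ] := (e : K →* ℚ_[ℓ]).comp χ
  obtain ⟨Δ, hΔ, h⟩ := exists_logs2 ρ' χ' (fun v f => by
    let f' : Dual K V :=
      { toFun := fun x => e.symm (f x)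
        map_add' := fun x y => by rw [map_add, map_add]
        map_smul' := fun r x => by
          rw [← hsm', map_smul, smul_eq_mul, map_mul, e.symm_apply_apply]
          rfl }
    refine (hρ v f').congr fun s => ?_
    exact e.apply_symm_apply (f (ρ s v))) hχ
  refine ⟨Δ, hΔ, fun s hs => ?_⟩
  obtain ⟨Y, y, f, hf, hYl, hyl, hY⟩ := h s hs
  refine ⟨ofQ Y, e.symm y, f, hf, fun v g => ?_, ?_, fun κ _ _ φ M => ?_⟩
  · let g' : Dual ℚ_[ℓ] V :=
      { toFun := fun x => e (g x)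
        map_add' := fun x y => by rw [map_add, map_add]
        map_smul' := fun r x => by
          rw [hsm, map_smul, smul_eq_mul, map_mul, e.apply_symm_apply]
          rfl }
    have h1 := hYl v g'
    refine h1.congr fun k => ?_
    change _ * (e (g (ρ (s ^ (ℓ ^ f k)) v)) - e (g v)) = _
    rw [map_sub]
  · rw [e.apply_symm_apply]
    refine hyl.congr fun k => ?_
    change _ * (e (χ (s ^ (ℓ ^ f k))) - 1) = _
    rw [map_sub, map_one]
  let φ' : MultilinearMap ℚ_[ℓ] (fun _ : κ => V) ℚ_[ℓ] :=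
    { toFun := fun v => e (φ v)
      map_update_add' := fun v i x y => by
        rw [φ.map_update_add, map_add]
      map_update_smul' := fun v i r x => by
        rw [hsm, φ.map_update_smul, smul_eq_mul, map_mul, e.apply_symm_apply]
        rfl }
  have h1 := hY κ φ' M
  constructor
  · rintro ⟨N, hN, hN'⟩ v
    have h2 := h1.1 ⟨N, hN, fun v => by
      change e (φ fun j => ρ (s ^ N) (v j)) = e (χ (s ^ N)) ^ M * e (φ v)
      rw [hN', map_mul, map_pow]⟩ v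
    change ∑ j, e (φ (Function.update v j (Y (v j)))) = M * y * e (φ v) at h2
    apply e.injective
    rw [map_sum, map_mul, map_mul, map_natCast, e.apply_symm_apply]
    exact h2
  · intro h2 v
    have h3 := h1.2 (fun v => by
      change ∑ j, e (φ (Function.update v j (Y (v j)))) = M * y * e (φ v)
      have h4 := congrArg e (h2 v)
      rw [map_sum, map_mul, map_mul, map_natCast, e.apply_symm_apply] at h4
      exact h4) v
    change e (φ fun j => ρ s (v j)) = e (χ s) ^ M * e (φ v) at h3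
    apply e.injective
    rw [map_mul, map_pow]
    exact h3

end abs

end

end Pool.Agent.Q50.MTC
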