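import Pool.Agent.Q50.MTC.Cm
import Pool.Agent.Q50.MTC.Lg
import Pool.Agent.Y121.AHS.Conv

/-!
# The traces of the logarithms
-/

open CategoryTheory AlgebraicGeometry TensorProduct

universe u w

set_option linter.unusedSectionVars false

namespace Pool.Agent.Q50.MTC

open Module Filter Topology Pool.Agent.H204R3.SP Pool.Agent.W516.DR
open Pool.Agent.H914 Pool.Agent.H914.VarClass Pool.Agent.H914.VarClass.Obj
  Pool.Agent.H914.WeilCohomology
open Pool.Agent.Y133.Half Pool.Agent.Y121.AH Pool.Agent.Q50.FP Pool.Agent.W516.KC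
open Pool.Agent.Q55 (GaloisAction SubAction Virtually TateConj tatePred)
open Pool.Agent.Q60.TD (SemisimpleAt rep act_one)
open Pool.Agent.Y121.AHS (extForm extEm toC toE)

section rank

variable {K V : Type*} [Field K] [AddCommGroup V] [Module K V] [FiniteDimensional K V]

/-- The trace of the product with a sum of endomorphisms of rank one. -/
theorem trace_rank {m : ℕ} {f : Fin m → (V →ₗ[K] K)} {a : Fin m → V} {P : Module.End K V}
    (hP : ∀ x, P x = ∑ j, f j x • a j) (Z : Module.End K V) :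
    LinearMap.trace K V (Z * P) = ∑ j, f j (Z (a j)) := by
  have h1 : Z * P = ∑ j, (f j).smulRight (Z (a j)) := by
    refine LinearMap.ext fun x => ?_
    rw [Module.End.mul_apply, hP, map_sum, LinearMap.sum_apply]
    refine Finset.sum_congr rfl fun j _ => ?_
    rw [map_smul, LinearMap.smulRight_apply]
  rw [h1, map_sum]
  refine Finset.sum_congr rfl fun j _ => ?_
  rw [LinearMap.trace_smulRight]

end rank

variable {k : Type u} [Field k] {𝒱 : VarClass k} {ops : CycleOps 𝒱}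
  {E : WeilCohomology.{u, 0} ops} {X Y : 𝒱.Obj} {n : ℕ}

/-- A homogeneous decomposition of an endomorphism. -/
theorem exists_rank (P : Module.End E.K (E.H X)) :
    ∃ (m : ℕ) (f : Fin m → (E.H X →ₗ[E.K] E.K)) (a : Fin m → E.H X) (d : Fin m → ℕ),
      (∀ j, a j ∈ E.gr X (d j)) ∧ ∀ x, P x = ∑ j, f j x • a j := by
  classical
  let b0 := (E.isInternal X).collectedBasis (fun i => Module.finBasis E.K (E.gr X i))
  have hfin : Finite (Σ i, Fin (finrank E.K (E.gr X i))) := Module.Finite.finite_basis b0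
  have := Fintype.ofFinite (Σ i, Fin (finrank E.K (E.gr X i)))
  let e := Fintype.equivFin (Σ i, Fin (finrank E.K (E.gr X i)))
  let b := b0.reindex e
  refine ⟨_, fun j => (b.coord j).comp P, b, fun j => (e.symm j).1, fun j => ?_, fun x => ?_⟩
  · have h1 : b j = b0 (e.symm j) := Basis.reindex_apply _ _ _
    rw [h1]
    exact (E.isInternal X).collectedBasis_mem _ _
  · conv_lhs => rw [← b.sum_repr (P x)]
    rfl

section base

variable [Algebra E.K ℂ]

theorem extForm_tmul (f : E.H X →ₗ[E.K] E.K) (l : ℂ) (x : E.H X) :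
    extForm E.K ℂ f (l ⊗ₜ[E.K] x : ℂ ⊗[E.K] E.H X) = algebraMap E.K ℂ (f x) * l := by
  change TensorProduct.AlgebraTensorModule.rid E.K ℂ ℂ (f.baseChange ℂ (l ⊗ₜ[E.K] x)) = _
  rw [LinearMap.baseChange_tmul, TensorProduct.AlgebraTensorModule.rid_tmul, Algebra.smul_def]

/-- The extension of a linear form. -/
noncomputable def fx (f : E.H X →ₗ[E.K] E.K) : (baseW E ℂ).H X →ₗ[(baseW E ℂ).K] (baseW E ℂ).K :=
  (TensorProduct.AlgebraTensorModule.rid E.K ℂ ℂ).toLinearMap ∘ₗ f.baseChange ℂ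

theorem fx_apply (f : E.H X →ₗ[E.K] E.K) (x : (baseW E ℂ).H X) :
    fx f x = (show (baseW E ℂ).K from extForm E.K ℂ f x) := rfl

theorem fx_em (f : E.H X →ₗ[E.K] E.K) (x : E.H X) : fx f (em E ℂ x) = ex E ℂ (f x) := by
  have h1 := extForm_tmul f 1 x
  rw [mul_one] at h1
  exact h1

/-- The trace of the product with the extension of a sum of endomorphisms of rank one. -/
theorem trace_rank_base {m : ℕ} {f : Fin m → (E.H X →ₗ[E.K] E.K)} {a : Fin m → E.H X}
    {P : Module.End E.K (E.H X)} (hP : ∀ x, P x = ∑ j, f j x • a j)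
    (Z : Module.End (baseW E ℂ).K ((baseW E ℂ).H X)) :
    LinearMap.trace (baseW E ℂ).K ((baseW E ℂ).H X) (Z * bc ℂ P) =
      ∑ j, fx (f j) (Z (em E ℂ (a j))) := by
  refine trace_rank (f := fun j => fx (f j)) (a := fun j => em E ℂ (a j)) ?_ Z
  intro x
  refine base_ind (p := fun x => bc ℂ P x = ∑ j, fx (f j) x • em E ℂ (a j)) ?_ ?_ x
  · intro l x
    rw [map_smul, bc_em, hP]
    have h1 : em E ℂ (∑ j, f j x • a j) = ∑ j, ex E ℂ (f j x) • em E ℂ (a j) := by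
      have h2 : ∀ (s : Finset (Fin m)), em E ℂ (∑ j ∈ s, f j x • a j) =
          ∑ j ∈ s, ex E ℂ (f j x) • em E ℂ (a j) := by
        classical
        intro s
        induction s using Finset.induction_on with
        | empty => rw [Finset.sum_empty, Finset.sum_empty, em_zero]
        | insert i s hi ih =>
          rw [Finset.sum_insert hi, Finset.sum_insert hi, em_add, em_smul, ih]
      exact h2 _
    rw [h1, Finset.smul_sum]
    refine Finset.sum_congr rfl fun j _ => ?_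
    rw [map_smul, fx_em, smul_eq_mul, smul_smul]
  · intro a b ha hb
    rw [map_add, ha, hb, ← Finset.sum_add_distrib]
    refine Finset.sum_congr rfl fun j _ => ?_
    rw [map_add, add_smul]

end base

section lim

variable {Γ : Type w} [Group Γ] [TopologicalSpace Γ] {G : GaloisAction E Γ} {ℓ : ℕ} [Fact ℓ.Prime]
  {e : E.K ≃+* ℚ_[ℓ]}

/-- The property of the logarithms with respect to the forms. -/
def LogG (G : GaloisAction E Γ) (X : 𝒱.Obj) (s : Γ) (Y : Module.End E.K (E.H X)) (y : E.K) :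
    Prop :=
  ∀ (κ : Type) [Fintype κ] [DecidableEq κ]
      (φ : MultilinearMap E.K (fun _ : κ => E.H X) E.K) (M : ℕ),
    ((∃ N, 0 < N ∧ ∀ v, φ (fun j => (G.ρ X).act (s ^ N) (v j)) =
        (G.χ (s ^ N) : E.K) ^ M * φ v) →
      ∀ v, ∑ j, φ (Function.update v j (Y (v j))) = M * y * φ v) ∧
    ((∀ v, ∑ j, φ (Function.update v j (Y (v j))) = M * y * φ v) →
      ∀ v, φ (fun j => (G.ρ X).act s (v j)) = (G.χ s : E.K) ^ M * φ v)

/-- Logarithms as limits. -/
theorem exists_lims (hX : IsLadic (G.ρ X) G.χ e) :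
    ∃ Δ : Subgroup Γ, Δ.FiniteIndex ∧ ∀ s ∈ Δ, s ∈ (G.ρ X).dom ∧
      ∃ (Y : Module.End E.K (E.H X)) (y : E.K) (f : ℕ → ℕ), StrictMono f ∧
        (∀ (v : E.H X) (g : E.H X →ₗ[E.K] E.K), Tendsto (fun k => ((ℓ : ℚ_[ℓ]) ^ f k)⁻¹ *
          e (g ((G.ρ X).act (s ^ (ℓ ^ f k)) v) - g v)) atTop (𝓝 (e (g (Y v))))) ∧
        Tendsto (fun k => ((ℓ : ℚ_[ℓ]) ^ f k)⁻¹ * e ((G.χ (s ^ (ℓ ^ f k)) : E.K) - 1)) atTop
          (𝓝 (e y)) ∧
        LogG G X s Y y := by
  have := hX.topGroup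
  have := hX.compact
  have hcl : IsClosed ((G.ρ X).dom : Set Γ) := Subgroup.isClosed_of_isOpen _ hX.isOpen
  have : CompactSpace (G.ρ X).dom := isCompact_iff_compactSpace.1 hcl.isCompact
  let χ : (G.ρ X).dom →* E.K := (Units.coeHom E.K).comp (G.χ.comp (G.ρ X).dom.subtype)
  obtain ⟨Δ, hΔ, h3⟩ := exists_logs_of2 e (rep G X) χ hX.cont hX.cont'
  refine ⟨Δ.map (G.ρ X).dom.subtype, ?_, ?_⟩
  · have := (G.isGalois X).finiteIndex
    refine ⟨?_⟩
    rw [Subgroup.index_map_subtype]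
    exact mul_ne_zero hΔ.index_ne_zero this.index_ne_zero
  · rintro _ ⟨s, hs, rfl⟩
    obtain ⟨Y, y, f, hf, h4, h5, hY⟩ := h3 s hs
    exact ⟨s.2, Y, y, f, hf, h4, h5, fun κ _ _ φ M => hY κ φ M⟩

theorem hasLogs' (hX : IsLadic (G.ρ X) G.χ e) : HasLogs G X := by
  obtain ⟨Δ, hΔ, h⟩ := exists_lims hX
  refine ⟨Δ, hΔ, fun s hs => ?_⟩
  obtain ⟨h1, Y, y, f, -, -, -, h2⟩ := h s hs
  exact ⟨h1, Y, y, h2⟩

variable {W : WeilCohomology.{u, 0} ops} [Algebra W.K ℂ] [Algebra E.K ℂ]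
  {T : HodgeDecomposition W}

theorem N_eq (H : HodgeTate T G) (τ : ℂ ≃+* ℂ) (x : (baseW E ℂ).H X) :
    theta (toC (H.cmp τ)) T X x = H.N X τ x := by
  obtain ⟨x, rfl⟩ := ((toC (H.cmp τ)).e X).surjective x
  rw [theta_apply]
  exact (H.op X τ x).symm

/-- **The traces of the logarithms.** -/
theorem exists_log_trace (H : HodgeTate T G) (hX : IsLadic (G.ρ X) G.χ e)
    (S : SenSerre e H X) :
    ∃ Δ : Subgroup Γ, Δ.FiniteIndex ∧ ∀ s ∈ Δ, s ∈ (G.ρ X).dom ∧
      ∃ (Y : Module.End E.K (E.H X)) (y : E.K), LogG G X s Y y ∧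
        ∃ (I : Finset (ℂ ≃+* ℂ)) (r : (ℂ ≃+* ℂ) → ℂ), ∀ P : Module.End E.K (E.H X),
          (∃ Δ' : Subgroup Γ, Δ'.FiniteIndex ∧ ∀ g ∈ Δ', g ∈ (G.ρ X).dom → ∀ c,
            (G.ρ X).act g (P c) = P ((G.ρ X).act g c)) →
          algebraMap E.K ℂ (LinearMap.trace E.K (E.H X) ((Y - (y / 2) • dg E X) * P)) =
            ∑ i ∈ I, (r i / 2) * (show ℂ from LinearMap.trace (baseW E ℂ).K ((baseW E ℂ).H X)
              (theta (toC (H.cmp i)) T X * bc ℂ P)) := by
  obtain ⟨Δ, hΔ, h⟩ := exists_lims hX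
  obtain ⟨Δ₂, hΔ₂, h₂⟩ := S
  refine ⟨Δ ⊓ Δ₂, inferInstance, fun s hs => ?_⟩
  obtain ⟨hsX, Y, y, f, hf, hYl, hyl, hY⟩ := h s hs.1
  obtain ⟨I, r, y', hy', hr, hP⟩ := h₂ s hs.2
  refine ⟨hsX, Y, y, hY, I, r, fun P hPc => ?_⟩
  -- the number `y'` is `y`
  have hyy : y' = y := by
    apply e.injective
    refine tendsto_nhds_unique (hy'.comp hf.tendsto_atTop) ?_
    refine hyl.congr fun k => ?_
    change _ = e ((G.χ (s ^ (ℓ ^ f k)) : E.K) - (G.χ (s ^ 0) : E.K)) / (ℓ : ℚ_[ℓ]) ^ f k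
    rw [pow_zero, map_one, Units.val_one, div_eq_mul_inv, mul_comm]
  subst hyy
  obtain ⟨m, g, a, d, ha, hPa⟩ := exists_rank P
  obtain ⟨t, ht, ht'⟩ := hP m g a d ha (by
    obtain ⟨Δ', hΔ', h'⟩ := hPc
    refine ⟨Δ', hΔ', fun x hx hxX c => ?_⟩
    rw [← hPa, ← hPa]
    exact h' x hx hxX c)
  -- the derivative
  have htY : t = ∑ j, g j (Y (a j)) := by
    apply e.injective
    refine tendsto_nhds_unique (ht.comp hf.tendsto_atTop) ?_
    have h1 : Tendsto (fun k => ∑ j, ((ℓ : ℚ_[ℓ]) ^ f k)⁻¹ *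
        e (g j ((G.ρ X).act (s ^ (ℓ ^ f k)) (a j)) - g j (a j))) atTop
        (𝓝 (∑ j, e (g j (Y (a j))))) := tendsto_finsetSum _ fun j _ => hYl (a j) (g j)
    rw [map_sum]
    refine h1.congr fun k => ?_
    change _ = e (∑ j, g j ((G.ρ X).act (s ^ (ℓ ^ f k)) (a j)) -
      ∑ j, g j ((G.ρ X).act (s ^ 0) (a j))) / (ℓ : ℚ_[ℓ]) ^ f k
    rw [← Finset.sum_sub_distrib, map_sum, div_eq_mul_inv, mul_comm, Finset.mul_sum]
    refine Finset.sum_congr rfl fun j _ => ?_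
    rw [pow_zero, act_one]
    rfl
  -- the traces
  have h1 : LinearMap.trace E.K (E.H X) (Y * P) = t := by
    rw [htY]
    exact trace_rank hPa Y
  have h2 : LinearMap.trace E.K (E.H X) (dg E X * P) = ∑ j, (d j : E.K) * g j (a j) := by
    rw [trace_rank hPa]
    refine Finset.sum_congr rfl fun j _ => ?_
    rw [dg_of (ha j), map_smul, smul_eq_mul]
  have h3 : ∀ i, (show ℂ from LinearMap.trace (baseW E ℂ).K ((baseW E ℂ).H X)
      (theta (toC (H.cmp i)) T X * bc ℂ P)) =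
      ∑ j, extForm E.K ℂ (g j) (H.N X i (extEm E.K ℂ (a j))) := by
    intro i
    rw [trace_rank_base hPa]
    refine Finset.sum_congr rfl fun j _ => ?_
    rw [fx_apply, N_eq]
    rfl
  have h4 : ∑ i ∈ I, r i * (show ℂ from LinearMap.trace (baseW E ℂ).K ((baseW E ℂ).H X)
      (theta (toC (H.cmp i)) T X * bc ℂ P)) + algebraMap E.K ℂ y' *
        algebraMap E.K ℂ (∑ j, (d j : E.K) * g j (a j)) = algebraMap E.K ℂ (2 * t) := by
    rw [← ht', ← hr, Finset.sum_mul, ← Finset.sum_add_distrib]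
    refine Finset.sum_congr rfl fun i _ => ?_
    rw [h3, ← mul_add, map_sum, ← Finset.sum_add_distrib]
  rw [sub_mul, smul_mul_assoc, map_sub, map_smul, h1, h2, smul_eq_mul, map_sub, map_mul,
    map_div₀]
  have h5 : algebraMap E.K ℂ (2 : E.K) = 2 := map_ofNat _ 2
  rw [map_mul, h5] at h4
  rw [h5]
  have h6 : ∑ i ∈ I, (r i / 2) * (show ℂ from LinearMap.trace (baseW E ℂ).K ((baseW E ℂ).H X)
      (theta (toC (H.cmp i)) T X * bc ℂ P)) = (∑ i ∈ I, r i *
        (show ℂ from LinearMap.trace (baseW E ℂ).K ((baseW E ℂ).H X)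
      (theta (toC (H.cmp i)) T X * bc ℂ P))) / 2 := by
    rw [Finset.sum_div]
    refine Finset.sum_congr rfl fun i _ => ?_
    ring
  rw [h6]
  linear_combination (-1 / 2 : ℂ) * h4

end lim

end Pool.Agent.Q50.MTC
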