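import Pool.Agent.Q50.MTC.Three
import Pool.Agent.Q50.FP.B1M

/-!
# The Mumford-Tate conjecture for the powers
-/

open CategoryTheory AlgebraicGeometry TensorProduct

universe u w

set_option linter.unusedSectionVars false

namespace Pool.Agent.Q50.MTC

open Module Filter Topology Pool.Agent.H204R3.SP Pool.Agent.W516.DR
open Pool.Agent.H914 Pool.Agent.H914.VarClass Pool.Agent.H914.VarClass.Obj
  Pool.Agent.H914.WeilCohomology
open Pool.Agent.Y133.Half Pool.Agent.Y121.AH Pool.Agent.Q50.FP Pool.Agent.W516.KC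
open Pool.Agent.Q55 (GaloisAction SubAction Virtually TateConj tatePred)
open Pool.Agent.Q60.TD (SemisimpleAt rep act_one)
open Pool.Agent.Y121.AHS (extForm extEm toC toE toE_nat emL)

variable {k : Type u} [Field k] {𝒱 : VarClass k} {ops : CycleOps 𝒱}
  {W E : WeilCohomology.{u, 0} ops} {X Y : 𝒱.Obj} {n : ℕ}

section art

variable [Algebra W.K E.K]

/-- The comparison maps given by a comparison isomorphism. -/
noncomputable def artW (hrat : ∀ r : W.K, ∃ q : ℚ, (q : W.K) = r)
    (A : Pool.Agent.Y121.AHS.Comparison W E E.K) : ArtC W E where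
  a X :=
    { toFun := fun x => Pool.Agent.Q50.FP.psi E X (toE A X (em W E.K x))
      map_one' := by
        rw [em_one, map_one, map_one]
      map_mul' := fun x y => by
        rw [Pool.Agent.Y121.AH.em_mul, map_mul, map_mul]
      map_zero' := by
        rw [Pool.Agent.Y121.AH.em_zero, map_zero, map_zero]
      map_add' := fun x y => by
        rw [Pool.Agent.Y121.AH.em_add, map_add, map_add] }
  smul X r x := by
    change Pool.Agent.Q50.FP.psi E X (toE A X (em W E.K (r • x))) = _ • Pool.Agent.Q50.FP.psi E X (toE A X (em W E.K x))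
    rw [Pool.Agent.Y121.AH.em_smul]
    have h1 := (toC A).semi X (ex W E.K r) (em W E.K x)
    have h2 : (toC A).s (ex W E.K r) = (show (baseW E E.K).K from algebraMap W.K E.K r) := by
      obtain ⟨q, rfl⟩ := hrat r
      change A.s (algebraMap W.K E.K q) = algebraMap W.K E.K q
      rw [map_ratCast, map_ratCast]
    rw [h2] at h1
    exact (congrArg (Pool.Agent.Q50.FP.psi E X) h1).trans (Pool.Agent.Q50.FP.psi_smul _ _)
  gr X i x hx := Pool.Agent.Q50.FP.psi_gr (((toC A).gr).2 (Pool.Agent.Y121.AH.em_gr hx))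
  map X Y f y := by
    change Pool.Agent.Q50.FP.psi E X (toE A X (em W E.K (W.map f y))) = _
    rw [← Pool.Agent.Y121.AH.em_map, toE_nat, Pool.Agent.Q50.FP.psi_map]
    rfl
  c := A.c
  ne := A.ne
  cl X j z hz := by
    change Pool.Agent.Q50.FP.psi E X (toE A X (em W E.K (W.cl X z))) = _
    have h1 := (toC A).cyc hz
    refine (congrArg (Pool.Agent.Q50.FP.psi E X) h1).trans ?_
    have h2 : (toC A).c ^ j • (baseW E E.K).cl X z =
        (show (baseW E E.K).K from A.c ^ j) • em E E.K (E.cl X z) := rfl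
    rw [h2, Pool.Agent.Q50.FP.psi_smul, Pool.Agent.Q50.FP.psi_em]
  tr X x := by
    change E.tr X (Pool.Agent.Q50.FP.psi E X (toE A X (em W E.K x))) = _
    rw [← Pool.Agent.Q50.FP.psi_tr]
    have h1 := (toC A).tr X (em W E.K x)
    rw [Pool.Agent.Y121.AH.em_tr] at h1
    refine Eq.trans h1 ?_
    have h2 : (toC A).s (ex W E.K (W.tr X x)) =
        (show (baseW E E.K).K from algebraMap W.K E.K (W.tr X x)) := by
      obtain ⟨q, hq⟩ := hrat (W.tr X x)
      rw [← hq]
      change A.s (algebraMap W.K E.K q) = algebraMap W.K E.K q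
      rw [map_ratCast, map_ratCast]
    rw [h2]
    rfl
  span X := by
    rw [eq_top_iff]
    intro y _
    obtain ⟨z, rfl⟩ := (Pool.Agent.Q50.FP.psi E X).surjective y
    obtain ⟨z, rfl⟩ := (toE A X).surjective z
    refine base_ind (p := fun z => Pool.Agent.Q50.FP.psi E X (toE A X z) ∈ Submodule.span E.K
      (Set.range fun x => Pool.Agent.Q50.FP.psi E X (toE A X (em W E.K x)))) ?_ ?_ z
    · intro l x
      have h1 := (toC A).semi X l (em W E.K x)
      have h2 : toE A X (l • em W E.K x) =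
          (show (baseW E E.K).K from A.s l) • toE A X (em W E.K x) := h1
      rw [h2, Pool.Agent.Q50.FP.psi_smul]
      exact Submodule.smul_mem _ _ (Submodule.subset_span ⟨x, rfl⟩)
    · intro a b ha hb
      rw [map_add, map_add]
      exact Submodule.add_mem _ ha hb

theorem artW_apply (hrat : ∀ r : W.K, ∃ q : ℚ, (q : W.K) = r)
    (A : Pool.Agent.Y121.AHS.Comparison W E E.K) (x : W.H X) :
    em E E.K ((artW hrat A).a X x) = toE A X (em W E.K x) := by
  rw [← Pool.Agent.Q50.FP.psi_symm]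
  exact (Pool.Agent.Q50.FP.psi E X).symm_apply_apply _

theorem em_injective {a b : E.H X} (h : em E E.K a = em E E.K b) : a = b := by
  rw [← Pool.Agent.Q50.FP.psi_em a, h, Pool.Agent.Q50.FP.psi_em]

end art

variable [Algebra W.K ℂ] [Algebra W.K E.K] [Algebra E.K ℂ] {T : HodgeDecomposition W}
  {Γ : Type w} [Group Γ] {G : GaloisAction E Γ}

theorem isHodgeComb_iff (A : Pool.Agent.Y121.AHS.Comparison W E E.K) {j : ℕ} {c : E.H X} :
    IsHodgeComb T A X j c ↔
      c ∈ Submodule.span E.K ((artW T.rat A).a X '' {x | IsHodge T X j x}) := by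
  have h1 : (artW T.rat A).a X '' {x | IsHodge T X j x} =
      {a | ∃ b, IsHodge T X j b ∧ A.e X (emL W E.K b) = emL E E.K a} := by
    ext a
    constructor
    · rintro ⟨x, hx, rfl⟩
      exact ⟨x, hx, (artW_apply T.rat A x).symm⟩
    · rintro ⟨x, hx, h⟩
      refine ⟨x, hx, em_injective ?_⟩
      rw [artW_apply]
      exact h
  rw [h1]
  rfl

theorem isAlg_iff' {W : WeilCohomology.{u, 0} ops} {j : ℕ} {c : W.H X} :
    IsAlg W X j c ↔ c ∈ spanCycles W X j := by
  unfold IsAlg IsComb spanCycles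
  have h1 : {c : W.H X | ∃ z, X.IsCyc j z ∧ W.cl X z = id c} =
      {c | ∃ p : ℕ, (p : ℤ) = (j : ℤ) ∧ ∃ z, X.IsCyc p z ∧ W.cl X z = c} := by
    ext c
    constructor
    · rintro ⟨z, hz, rfl⟩
      exact ⟨j, rfl, z, hz, rfl⟩
    · rintro ⟨p, hp, z, hz, rfl⟩
      obtain rfl : p = j := by exact_mod_cast hp
      exact ⟨z, hz, rfl⟩
  rw [h1]

theorem isTate_iff {j : ℕ} {c : E.H X} : IsTate G X j c ↔ Pool.Agent.Q55.IsTate G X j c := Iff.rfl

/-- A rational class whose image is a combination of cycles is a combination of cycles. -/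
theorem descend (A : ArtC W E) {j : ℕ} {c : W.H X} (h : A.a X c ∈ spanCycles E X j) :
    c ∈ spanCycles W X j := by
  by_contra hcon
  obtain ⟨f, hf, hf'⟩ := Submodule.exists_le_ker_of_notMem hcon
  obtain ⟨b, hb⟩ := exists_dual_class W X f
  have h1 : spanCycles E X j ≤ LinearMap.ker ((E.tr X).comp (LinearMap.mulLeft E.K (A.a X b))) := by
    unfold spanCycles
    rw [Submodule.span_le]
    rintro _ ⟨p, hp, z, hz, rfl⟩
    have h2 : A.a X b * E.cl X z = (A.c ^ p)⁻¹ • A.a X (b * W.cl X z) := by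
      rw [map_mul, A.cl X p z hz, mul_smul_comm, smul_smul, inv_mul_cancel₀ (A.cne p), one_smul]
    have h3 : f (W.cl X z) = 0 := by
      have h4 : W.cl X z ∈ spanCycles W X j := Submodule.subset_span ⟨p, hp, z, hz, rfl⟩
      exact hf' h4
    change E.tr X (A.a X b * E.cl X z) = 0
    rw [h2, map_smul, A.tr, hb, h3, map_zero, mul_zero, smul_zero]
  have h2 := h1 h
  change E.tr X (A.a X b * A.a X c) = 0 at h2
  rw [← map_mul, A.tr, hb] at h2
  have h3 := (mul_eq_zero.1 h2).resolve_left (A.cne _)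
  exact hf ((map_eq_zero (algebraMap W.K E.K)).1 h3)

variable [TopologicalSpace Γ] {ℓ : ℕ} [Fact ℓ.Prime] {e : E.K ≃+* ℚ_[ℓ]}

/-- **The images of the Hodge classes on all powers are Tate classes.** -/
theorem tate_of_hodge (A : ArtC W E) (H : HodgeTate T G) (hX : IsLadic (G.ρ X) G.χ e)
    (S : SenSerre e H X)
    (hHC : ∀ c, IsHodge T (pw X 1) X.dim c → IsAlg W (pw X 1) X.dim c)
    (hMT : ∀ c, IsHodge T (pw X 3) (2 * X.dim) c →
      Pool.Agent.Q55.IsTate G (pw X 3) (2 * X.dim) (A.a _ c)) {n j : ℕ} {c : W.H (pw X n)}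
    (hc : IsHodge T (pw X n) j c) : Pool.Agent.Q55.IsTate G (pw X n) j (A.a _ c) := by
  by_cases hj : j ≤ (pw X n).dim
  · obtain ⟨Δ, hΔ, h⟩ := exists_log_trace H hX S
    refine tate_of_tform (M := (pw X n).dim - j) (by omega) ?_
    have hdeg := (frm_dg_iff (M := (pw X n).dim - j) (j := j) (by omega)).2 (A.gr _ _ _ hc.1)
    refine ⟨hdeg, Δ, hΔ, fun s hs _ => ?_⟩
    obtain ⟨hsX, Y, y, hY, I, r, htr⟩ := h s hs
    have hD : Y - (y / 2) • dg E X ∈ gal G X := log_mem hsX fun κ _ _ φ M => (hY κ φ M).1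
    refine (hY _ _ _).2 fun v => ?_
    have h1 : Kills (Y - (y / 2) • dg E X) (frm E X n (A.a _ c)) := by
      refine kills_of_cm A fun ν => ?_
      have h2 := cm_mt A hD (cm_mtp A H hHC hMT hD (r := fun i => r i / 2) htr ν)
      exact h2 n _ fun ν => yy_kills ν hc.2
    have h2 := h1 v
    rw [sum_sub_smul, hdeg] at h2
    linear_combination h2
  · have h1 := hc.1
    have h2 : c ∈ W.gr (pw X n) (2 * j) := h1
    rw [W.gr_eq_bot _ _ (by omega), Submodule.mem_bot] at h2
    rw [h2, map_zero]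
    exact (tatePred G).zero

/-- A combination of Tate classes is a Tate class. -/
theorem tate_of_span {j : ℕ} {S : Set (E.H X)} (hS : ∀ c ∈ S, Pool.Agent.Q55.IsTate G X j c)
    {c : E.H X} (hc : c ∈ Submodule.span E.K S) : Pool.Agent.Q55.IsTate G X j c := by
  induction hc using Submodule.span_induction with
  | mem x h => exact hS x h
  | zero => exact (tatePred G).zero
  | add a b _ _ ha hb => exact (tatePred G).add ha hb
  | smul r a _ ha => exact (tatePred G).smul _ ha

/-- **The main theorem.** -/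
theorem main (A : Pool.Agent.Y121.AHS.Comparison W E E.K) (H : HodgeTate T G) (X : 𝒱.Obj)
    (hX : IsLadic (G.ρ X) G.χ e) (S : SenSerre e H X)
    (hss : ∀ i, SemisimpleAt G X i)
    (hTC : ∀ c, IsTate G (pw X 1) X.dim c → IsAlg E (pw X 1) X.dim c)
    (hHC : ∀ c, IsHodge T (pw X 1) X.dim c → IsAlg W (pw X 1) X.dim c)
    (hMT : ∀ c, IsTate G (pw X 3) (2 * X.dim) c ↔ IsHodgeComb T A (pw X 3) (2 * X.dim) c)
    (n j : ℕ) :
    (∀ c, IsTate G (pw X n) j c ↔ IsHodgeComb T A (pw X n) j c) ∧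
      ((∀ c, IsTate G (pw X n) j c → IsAlg E (pw X n) j c) ↔
        ∀ c, IsHodge T (pw X n) j c → IsAlg W (pw X n) j c) := by
  have hMT' : ∀ c, IsHodge T (pw X 3) (2 * X.dim) c →
      Pool.Agent.Q55.IsTate G (pw X 3) (2 * X.dim) ((artW T.rat A).a _ c) := fun c hc =>
    (hMT _).2 ((isHodgeComb_iff A).2 (Submodule.subset_span ⟨c, hc, rfl⟩))
  have h1 : ∀ c, IsHodge T (pw X n) j c →
      Pool.Agent.Q55.IsTate G (pw X n) j ((artW T.rat A).a _ c) := fun c hc =>
    tate_of_hodge (artW T.rat A) H hX S hHC hMT' hc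
  have h2 : ∀ c, IsTate G (pw X n) j c → IsHodgeComb T A (pw X n) j c := fun c hc =>
    (isHodgeComb_iff A).2 (tate_mem_span (artW T.rat A) (hasLogs' hX) hss
      (fun c hc => isAlg_iff'.1 (hTC c hc))
      (fun c hc => (isHodgeComb_iff A).1 ((hMT c).1 hc)) (fun τ => toC (H.cmp τ))
      (fun τ z => by
        have h3 := H.semi τ
        change (H.cmp τ).s z = τ z
        rw [h3])
      (fun τ Y j c hc => (N_eq H τ _).trans (H.tate Y τ j c hc)) n j c hc)
  refine ⟨fun c => ⟨h2 c, fun hc => ?_⟩, ?_, ?_⟩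
  · refine tate_of_span ?_ ((isHodgeComb_iff A).1 hc)
    rintro _ ⟨x, hx, rfl⟩
    exact h1 x hx
  · intro h c hc
    exact isAlg_iff'.2 (descend (artW T.rat A) (isAlg_iff'.1 (h _ (h1 c hc))))
  · intro h c hc
    have h3 : Submodule.span E.K ((artW T.rat A).a (pw X n) '' {x | IsHodge T (pw X n) j x}) ≤
        spanCycles E (pw X n) j := by
      rw [Submodule.span_le]
      rintro _ ⟨x, hx, rfl⟩
      exact a_spanCycles _ (isAlg_iff'.1 (h x hx))
    exact isAlg_iff'.2 (h3 ((isHodgeComb_iff A).1 (h2 c hc)))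

end Pool.Agent.Q50.MTC
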