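import Pool.Agent.Q50.MTC.Mt

/-!
# The rational components of an endomorphism of the `ℓ`-adic cohomology
-/

open CategoryTheory AlgebraicGeometry TensorProduct

universe u w

set_option linter.unusedSectionVars false

namespace Pool.Agent.Q50.MTC

open Module Pool.Agent.H204R3.SP Pool.Agent.W516.DR
open Pool.Agent.H914 Pool.Agent.H914.VarClass Pool.Agent.H914.VarClass.Obj
  Pool.Agent.H914.WeilCohomology
open Pool.Agent.Y133.Half Pool.Agent.Y121.AH Pool.Agent.Q50.FP Pool.Agent.W516.KC

variable {k : Type u} [Field k] {𝒱 : VarClass k} {ops : CycleOps 𝒱}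
  {W E : WeilCohomology.{u, 0} ops} [Algebra W.K E.K] (A : ArtC W E) {X Y : 𝒱.Obj} {n : ℕ}

/-- The basis of the `ℓ`-adic cohomology. -/
noncomputable def bas (X : 𝒱.Obj) : Basis (Fin (finrank W.K (W.H X))) E.K (E.H X) :=
  (A.exists_basis (Module.finBasis W.K (W.H X))).choose

theorem bas_apply (i : Fin (finrank W.K (W.H X))) :
    bas A X i = A.a X (Module.finBasis W.K (W.H X) i) :=
  (A.exists_basis (Module.finBasis W.K (W.H X))).choose_spec.1 i

theorem bas_repr (x : W.H X) (i : Fin (finrank W.K (W.H X))) : (bas A X).repr (A.a X x) i =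
    algebraMap W.K E.K ((Module.finBasis W.K (W.H X)).repr x i) :=
  (A.exists_basis (Module.finBasis W.K (W.H X))).choose_spec.2 x i

/-- The component of an endomorphism. -/
noncomputable def cm (ν : E.K →ₗ[W.K] W.K) (D : Module.End E.K (E.H X)) :
    Module.End W.K (W.H X) where
  toFun x := ∑ i, ν ((bas A X).repr (D (A.a X x)) i) • Module.finBasis W.K (W.H X) i
  map_add' x y := by
    rw [← Finset.sum_add_distrib]
    refine Finset.sum_congr rfl fun i _ => ?_
    rw [map_add, map_add, map_add, Finsupp.add_apply, map_add, add_smul]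
  map_smul' r x := by
    rw [RingHom.id_apply, Finset.smul_sum]
    refine Finset.sum_congr rfl fun i _ => ?_
    rw [A.smul, map_smul, map_smul, Finsupp.smul_apply, smul_eq_mul, ← Algebra.smul_def, map_smul,
      smul_eq_mul, mul_smul]

theorem cm_apply (ν : E.K →ₗ[W.K] W.K) (D : Module.End E.K (E.H X)) (x : W.H X) :
    cm A ν D x = ∑ i, ν ((bas A X).repr (D (A.a X x)) i) • Module.finBasis W.K (W.H X) i := rfl

/-- The values of a linear form at the components. -/
theorem form_cm (ν : E.K →ₗ[W.K] W.K) (D : Module.End E.K (E.H X)) {f : W.H X →ₗ[W.K] W.K}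
    {f' : E.H X →ₗ[E.K] E.K} {γ : E.K} (hγ : γ ≠ 0)
    (h : ∀ x, f' (A.a X x) = γ * algebraMap W.K E.K (f x)) (x : W.H X) :
    f (cm A ν D x) = ν (γ⁻¹ * f' (D (A.a X x))) := by
  have h1 : f' (D (A.a X x)) = ∑ i, (bas A X).repr (D (A.a X x)) i *
      (γ * algebraMap W.K E.K (f (Module.finBasis W.K (W.H X) i))) := by
    conv_lhs => rw [← (bas A X).sum_repr (D (A.a X x)), map_sum]
    refine Finset.sum_congr rfl fun i _ => ?_
    rw [map_smul, smul_eq_mul, bas_apply, h]
  rw [h1, cm_apply, map_sum, Finset.mul_sum, map_sum]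
  refine Finset.sum_congr rfl fun i _ => ?_
  have h2 : γ⁻¹ * ((bas A X).repr (D (A.a X x)) i *
      (γ * algebraMap W.K E.K (f (Module.finBasis W.K (W.H X) i)))) =
      f (Module.finBasis W.K (W.H X) i) • (bas A X).repr (D (A.a X x)) i := by
    rw [Algebra.smul_def]
    field_simp
  rw [h2, map_smul, map_smul, smul_eq_mul, smul_eq_mul, mul_comm]

/-- The component of an endomorphism which kills the form of a rational class. -/
theorem cm_kills (ν : E.K →ₗ[W.K] W.K) {D : Module.End E.K (E.H X)} {c : W.H (pw X n)}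
    (h : Kills D (frm E X n (A.a _ c))) : Kills (cm A ν D) (frm W X n c) := by
  intro v
  have h1 : ∀ j, frm W X n c (Function.update v j (cm A ν D (v j))) =
      ν ((A.c ^ (pw X n).dim)⁻¹ * frm E X n (A.a _ c)
        (Function.update (fun i => A.a X (v i)) j (D (A.a X (v j))))) := by
    intro j
    refine form_cm A ν D (f := (frm W X n c).toLinearMap v j)
      (f' := (frm E X n (A.a _ c)).toLinearMap (fun i => A.a X (v i)) j)
      (A.cne _) ?_ (v j)
    intro x
    change frm E X n (A.a _ c) (Function.update (fun i => A.a X (v i)) j (A.a X x)) =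
      _ * algebraMap W.K E.K (frm W X n c (Function.update v j x))
    rw [A.update_a, A.a_frm]
  rw [Finset.sum_congr rfl fun j _ => h1 j, ← map_sum, ← Finset.mul_sum]
  have h2 := h (fun i => A.a X (v i))
  rw [h2, mul_zero, map_zero]

/-- An endomorphism all of whose components kill the form of a rational class. -/
theorem kills_of_cm {D : Module.End E.K (E.H X)} {c : W.H (pw X n)}
    (h : ∀ ν, Kills (cm A ν D) (frm W X n c)) : Kills D (frm E X n (A.a _ c)) := by
  refine kills_of_basis (bas A X) _ _ fun I => ?_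
  simp only [bas_apply]
  set v : Fin (n + 1) → W.H X := fun i => Module.finBasis W.K (W.H X) (I i) with hv
  have h1 : ∀ ν : E.K →ₗ[W.K] W.K, ν ((A.c ^ (pw X n).dim)⁻¹ *
      ∑ j, frm E X n (A.a _ c) (Function.update (fun i => A.a X (v i)) j (D (A.a X (v j))))) = 0 := by
    intro ν
    have h2 := h ν v
    have h3 : ∀ j, frm W X n c (Function.update v j (cm A ν D (v j))) =
        ν ((A.c ^ (pw X n).dim)⁻¹ * frm E X n (A.a _ c)
          (Function.update (fun i => A.a X (v i)) j (D (A.a X (v j))))) := by
      intro j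
      refine form_cm A ν D (f := (frm W X n c).toLinearMap v j)
        (f' := (frm E X n (A.a _ c)).toLinearMap (fun i => A.a X (v i)) j)
        (A.cne _) ?_ (v j)
      intro x
      change frm E X n (A.a _ c) (Function.update (fun i => A.a X (v i)) j (A.a X x)) =
        _ * algebraMap W.K E.K (frm W X n c (Function.update v j x))
      rw [A.update_a, A.a_frm]
    rw [Finset.sum_congr rfl fun j _ => h3 j, ← map_sum, ← Finset.mul_sum] at h2
    exact h2
  have h2 := eq_zero_of_dual (k := W.K) (L := E.K) h1
  exact (mul_eq_zero.1 h2).resolve_left (inv_ne_zero (A.cne _))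

/-- The components of skew endomorphisms are skew. -/
theorem cm_skew (ν : E.K →ₗ[W.K] W.K) {D : Module.End E.K (E.H X)} (h : IsSkew (prg E X) D) :
    IsSkew (prg W X) (cm A ν D) := by
  intro u v
  have h1 := form_cm A ν D (f := (prg W X).flip v) (f' := (prg E X).flip (A.a X v))
    (A.cne X.dim) (fun x => by
      rw [LinearMap.flip_apply, LinearMap.flip_apply, A.a_prg]) u
  have h2 := form_cm A ν D (f := prg W X u) (f' := prg E X (A.a X u))
    (A.cne X.dim) (fun x => A.a_prg u x) v
  rw [LinearMap.flip_apply, LinearMap.flip_apply] at h1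
  rw [h1, h2, ← map_add, ← mul_add, h, mul_zero, map_zero]

/-- The trace of the component. -/
theorem trace_cm (ν : E.K →ₗ[W.K] W.K) (D : Module.End E.K (E.H X)) :
    LinearMap.trace W.K (W.H X) (cm A ν D) = ν (LinearMap.trace E.K (E.H X) D) := by
  classical
  rw [LinearMap.trace_eq_matrix_trace W.K (Module.finBasis W.K (W.H X)),
    LinearMap.trace_eq_matrix_trace E.K (bas A X), Matrix.trace, Matrix.trace, map_sum]
  refine Finset.sum_congr rfl fun i _ => ?_
  rw [Matrix.diag_apply, Matrix.diag_apply, LinearMap.toMatrix_apply, LinearMap.toMatrix_apply,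
    bas_apply, cm_apply, map_sum, Finsupp.finsetSum_apply, Finset.sum_eq_single i]
  · rw [map_smul, Finsupp.smul_apply, Basis.repr_self, Finsupp.single_eq_same, smul_eq_mul,
      mul_one]
  · intro j _ hj
    rw [map_smul, Finsupp.smul_apply, Basis.repr_self, Finsupp.single_eq_of_ne (Ne.symm hj),
      smul_zero]
  · intro h
    exact absurd (Finset.mem_univ i) h

theorem cm_mul_ext (ν : E.K →ₗ[W.K] W.K) (D : Module.End E.K (E.H X))
    (e : Module.End W.K (W.H X)) : cm A ν (D * A.ext e) = cm A ν D * e := by
  refine LinearMap.ext fun x => ?_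
  rw [Module.End.mul_apply, cm_apply, cm_apply, Module.End.mul_apply, A.ext_apply]

/-- The trace of the product of the component and a rational endomorphism. -/
theorem trace_cm_mul (ν : E.K →ₗ[W.K] W.K) (D : Module.End E.K (E.H X))
    (e : Module.End W.K (W.H X)) : LinearMap.trace W.K (W.H X) (cm A ν D * e) =
      ν (LinearMap.trace E.K (E.H X) (D * A.ext e)) := by
  rw [← cm_mul_ext, trace_cm]

end Pool.Agent.Q50.MTC
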