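import Pool.Agent.Q60.TD.Defs
import Pool.Agent.Y121.AHS.Defs
import Mathlib.NumberTheory.Padics.PadicNumbers

/-!
# Betti, `ℓ`-adic and Hodge-Tate comparison: definitions

In the intended use `k` is an algebraic closure of a number field `F`, embedded into the complex
numbers, the varieties are the smooth projective ones over `k`, `W` is the rational cohomology of
the complex varieties with its Hodge decomposition, `E` is the `ℓ`-adic cohomology, and `Γ` is the
Galois group of `k` over `F`.
-/

open CategoryTheory AlgebraicGeometry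

universe u w

namespace Pool.Agent.Q50.MTC

open Pool.Agent.H914 Pool.Agent.H914.VarClass Pool.Agent.H914.VarClass.Obj
  Pool.Agent.H914.WeilCohomology
open Pool.Agent.Q55 (GaloisAction SubAction Virtually)
open Pool.Agent.Y121.AHS (Ext extEm extSm extMul extSub extMap extForm Comparison HL emL mapL)

section Alg

variable {Γ : Type w} [Group Γ] {K A : Type} [Field K] [Ring A] [Algebra K A] [Algebra K ℂ]

/-- The element `y` is the complex conjugate of `x`: we have `x = ∑ l i ⊗ c i` and
`y = ∑ (conj l i) ⊗ c i`. -/
def IsConj (x y : Ext K ℂ A) : Prop :=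
  ∃ (m : ℕ) (l : Fin m → ℂ) (c : Fin m → A), x = ∑ i, extSm K ℂ (l i) (extEm K ℂ (c i)) ∧
    y = ∑ i, extSm K ℂ (starRingEnd ℂ (l i)) (extEm K ℂ (c i))

/-- The value of the bilinear form `(a, b) ↦ tr (φ a * b)` after extension of the coefficients. -/
noncomputable def form (tr : A →ₗ[K] K) (φ : A →ₗ[K] A) (x y : Ext K ℂ A) : ℂ :=
  extForm K ℂ tr (extMul K ℂ (extMap K ℂ φ x) y)

/-- The form `(a, b) ↦ tr (φ a * b)` is a polarisation: different degrees are orthogonal, `h` is
skew, and the value at `(x, conj x)` is positive after multiplication by `i ^ (p - q)`, for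
nonzero `x` of type `(p, q)`. -/
structure IsPol (gr : ℕ → Submodule K A) (tr : A →ₗ[K] K) (h : Ext K ℂ A → Ext K ℂ A)
    (φ : A →ₗ[K] A) : Prop where
  orth : ∀ i j, i ≠ j → ∀ a ∈ gr i, ∀ b ∈ gr j, tr (φ a * b) = 0
  skew : ∀ x y, form tr φ (h x) y = -form tr φ x (h y)
  pos : ∀ (j : ℤ) (x y : Ext K ℂ A), h x = extSm K ℂ j x → IsConj x y → x ≠ 0 →
    ∃ t : ℝ, 0 < t ∧ Complex.I ^ j * form tr φ x y = t

/-- The operator `h` on the complexification of the graded algebra `A` is the operator of a
polarisable Hodge structure, the multiplication by `p - q` on the elements of type `(p, q)`: it is a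
linear derivation, the elements of degree `i` are sums of elements of type `(p, i - p)` with
`p ≤ i`, complex conjugation exchanges the types `(p, q)` and `(q, p)`, and there is a
polarisation. -/
structure IsHodgeOp (gr : ℕ → Submodule K A) (tr : A →ₗ[K] K) (h : Ext K ℂ A → Ext K ℂ A) :
    Prop where
  add : ∀ x y, h (x + y) = h x + h y
  smul : ∀ l x, h (extSm K ℂ l x) = extSm K ℂ l (h x)
  mul : ∀ x y, h (extMul K ℂ x y) = extMul K ℂ (h x) y + extMul K ℂ x (h y)
  types : ∀ i, ∀ x ∈ extSub K ℂ (gr i), ∃ y : ℕ → Ext K ℂ A,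
    (∀ p, y p ∈ extSub K ℂ (gr i) ∧ h (y p) = extSm K ℂ (2 * p - i) (y p)) ∧
      x = ∑ p ∈ Finset.range (i + 1), y p
  conj : ∀ x y, IsConj x y → IsConj (h x) (-h y)
  pol : ∃ φ, IsPol gr tr h φ

/-- The element `c` is in the subspace `S`. -/
def Mem (S : Submodule K A) (c : A) : Prop := c ∈ S

/-- The action of `Γ` on `A` is `ℓ`-adic: `Γ` is a compact topological group, an open subgroup acts,
the coefficients are isomorphic to `ℚ_ℓ`, and the action and the character are continuous. -/
structure IsLadic [TopologicalSpace Γ] (ρ : SubAction Γ K A) (χ : Γ →* Kˣ) {ℓ : ℕ}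
    [Fact ℓ.Prime] (e : K ≃+* ℚ_[ℓ]) : Prop where
  topGroup : IsTopologicalGroup Γ
  compact : CompactSpace Γ
  isOpen : IsOpen (ρ.dom : Set Γ)
  cont : ∀ (c : A) (f : A →ₗ[K] K), Continuous fun g : ρ.dom => e (f (ρ.act g c))
  cont' : Continuous fun g : ρ.dom => e (χ g)

/-- The element `c` of `gr` is fixed, up to the twist by `χ ^ j`, by a subgroup of finite index. -/
def VirtFixed (ρ : SubAction Γ K A) (χ : Γ →* Kˣ) (gr : Submodule K A) (j : ℕ) (c : A) : Prop :=
  c ∈ gr ∧ Virtually (ρ.Twists χ j c)

/-- The element `c` is a linear combination of elements `a` such that `g a = f b` for some `b` with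
the property `p`. -/
def IsComb (K : Type) {A : Type} {B C : Type*} [Field K] [Ring A] [Algebra K A] (p : B → Prop)
    (f : B → C) (g : A → C) (c : A) : Prop :=
  c ∈ Submodule.span K {a | ∃ b, p b ∧ f b = g a}

/-- The number `y` is the `ℓ`-adic derivative of `a` in zero. -/
def IsDeriv {ℓ : ℕ} [Fact ℓ.Prime] (e : K ≃+* ℚ_[ℓ]) (a : ℕ → K) (y : K) : Prop :=
  Filter.Tendsto (fun m => e (a (ℓ ^ m) - a 0) / ℓ ^ m) Filter.atTop (nhds (e y))

/-- The endomorphism `c ↦ ∑ f j (c) • a j` commutes with the action of `g` (if it acts). -/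
def ComWith (ρ : SubAction Γ K A) {m : ℕ} (f : Fin m → (A →ₗ[K] K)) (a : Fin m → A) (g : Γ) :
    Prop :=
  g ∈ ρ.dom → ∀ c, ρ.act g (∑ j, f j c • a j) = ∑ j, f j (ρ.act g c) • a j

/-- The logarithm of `g` is, modulo the endomorphisms which are orthogonal (for the trace form) to
the commutant of the Galois group, a combination of the Hodge-Tate operators. In detail: let `y` be
the derivative of `χ (g ^ n)`, and let `P = ∑ f j ⊗ a j` be an endomorphism which commutes with a
subgroup of finite index. The trace `t` of the product of `P` and the logarithm of `g` is the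
derivative of the trace of `g ^ n P`. The operator `N i` is the multiplication by `p - q` on the
classes of Hodge-Tate type `(p, q)` at the place `i`, so `N i + deg` is the multiplication by `2 p`,
twice the operator of Sen. There are numbers `r i` with sum `y`, independent of `P`, such that `2 t`
is the sum of the traces of the products of `P` and `r i (N i + deg)`.

This holds for all `g` in a subgroup of finite index of the Galois group of a number field. Indeed,
the trace of the product with `P` vanishes on the commutators in the Lie algebra of the image of the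
Galois group. By class field theory (finiteness of the class number) this Lie algebra is the sum
of its derived algebra and of the Lie algebras of the inertia groups at the places above `ℓ`; by
Sen's theorem the latter is the smallest `ℚ_ℓ`-subspace whose extension contains the operator of
Sen, and the trace of the product of this operator and `P` is an algebraic number. -/
def LogInSpan {ℓ : ℕ} [Fact ℓ.Prime] (e : K ≃+* ℚ_[ℓ]) (gr : ℕ → Submodule K A)
    (ρ : SubAction Γ K A) (χ : Γ →* Kˣ) {I : Type} (N : I → Ext K ℂ A → Ext K ℂ A) (g : Γ) :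
    Prop :=
  ∃ (s : Finset I) (r : I → ℂ) (y : K), IsDeriv e (fun n => (χ (g ^ n) : K)) y ∧
    ∑ i ∈ s, r i = algebraMap K ℂ y ∧
    ∀ (m : ℕ) (f : Fin m → (A →ₗ[K] K)) (a : Fin m → A) (d : Fin m → ℕ), (∀ j, a j ∈ gr (d j)) →
      Virtually (ComWith ρ f a) →
      ∃ t : K, IsDeriv e (fun n => ∑ j, f j (ρ.act (g ^ n) (a j))) t ∧
        ∑ i ∈ s, r i * ∑ j, (extForm K ℂ (f j) (N i (extEm K ℂ (a j))) +
          algebraMap K ℂ (d j * f j (a j))) = algebraMap K ℂ (2 * t)

end Alg

variable {k : Type u} [Field k] {𝒱 : VarClass k} {ops : CycleOps 𝒱}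
  {W E : WeilCohomology.{u, 0} ops}

/-- The class `x` is zero. -/
def IsZero {L : Type} [Field L] [Algebra W.K L] {X : 𝒱.Obj} (x : HL W L X) : Prop := x = 0

/-- A polarisable Hodge decomposition of a cohomology theory with rational coefficients: the
operator `h X` on the cohomology of `X` with complex coefficients is the multiplication by `p - q`
on the classes of type `(p, q)`. Pull-backs preserve the types, and the classes of algebraic cycles
are of type `(j, j)`. -/
structure HodgeDecomposition (W : WeilCohomology.{u, 0} ops) [Algebra W.K ℂ] where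
  rat : ∀ r : W.K, ∃ q : ℚ, (q : W.K) = r
  /-- the Hodge operator -/
  h : ∀ X : 𝒱.Obj, HL W ℂ X → HL W ℂ X
  op : ∀ X, IsHodgeOp (W.gr X) (W.tr X) (h X)
  map : ∀ (X Y : 𝒱.Obj) (f : X ⟶ Y) x, h X (mapL f x) = mapL f (h Y x)
  cyc : ∀ (X : 𝒱.Obj) j z, X.IsCyc j z → IsZero (h X (emL W ℂ (W.cl X z)))

variable [Algebra W.K ℂ] (T : HodgeDecomposition W)

/-- The class `c` is a Hodge class of degree `2 j`. -/
def IsHodge (X : 𝒱.Obj) (j : ℕ) (c : W.H X) : Prop :=
  Mem (W.gr X (2 * j)) c ∧ IsZero (T.h X (emL W ℂ c))

variable {T}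

/-- The class `c` is a linear combination of classes of algebraic cycles of codimension `j`. -/
def IsAlg (W : WeilCohomology.{u, 0} ops) (X : 𝒱.Obj) (j : ℕ) (c : W.H X) : Prop :=
  IsComb W.K (X.IsCyc j) (W.cl X) id c

variable {Γ : Type w} [Group Γ] (G : GaloisAction E Γ)

/-- The class `c` is a Tate class of degree `2 j`: it is fixed, up to the twist, by a subgroup of
finite index of `Γ`. -/
def IsTate (X : 𝒱.Obj) (j : ℕ) (c : E.H X) : Prop :=
  VirtFixed (G.ρ X) G.χ (E.gr X (2 * j)) j c

variable (T) [Algebra E.K ℂ]

/-- The Hodge-Tate comparison. The field of complex numbers is identified with the completion of an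
algebraic closure of `ℚ_ℓ`. For every automorphism `τ` of it (which gives an `ℓ`-adic place of `k`,
by composition with the embedding of `k` into the complex numbers) there is a `τ`-semilinear
isomorphism between the cohomology with complex coefficients and the `ℓ`-adic cohomology with
coefficients extended to the complex numbers: both are direct sums of the extensions of the spaces
`H^q(X, Ω^p)`, by the Hodge decomposition and by the Hodge-Tate decomposition at this place. Every
Tate class of codimension `j` is of Hodge-Tate type `(j, j)`. -/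
structure HodgeTate where
  /-- the isomorphism for the automorphism `τ` -/
  cmp : ∀ _ : ℂ ≃+* ℂ, Comparison W E ℂ
  /-- the multiplication by `p - q` on the classes of Hodge-Tate type `(p, q)` -/
  N : ∀ (X : 𝒱.Obj) (_ : ℂ ≃+* ℂ), HL E ℂ X → HL E ℂ X
  semi : ∀ τ : ℂ ≃+* ℂ, (cmp τ).s = τ
  op : ∀ X τ x, N X τ ((cmp τ).e X x) = (cmp τ).e X (T.h X x)
  tate : ∀ X τ j c, IsTate G X j c → IsZero (N X τ (emL E ℂ c))

variable {T G}

/-- The theorem of Sen (with class field theory) for the action on the cohomology of `X`: the
property `LogInSpan` holds for all elements of a subgroup of finite index of `Γ`. -/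
def SenSerre {ℓ : ℕ} [Fact ℓ.Prime] (e : E.K ≃+* ℚ_[ℓ]) (H : HodgeTate T G) (X : 𝒱.Obj) : Prop :=
  Virtually (LogInSpan e (E.gr X) (G.ρ X) G.χ (H.N X))

variable [Algebra W.K E.K]

/-- The class `c` is a linear combination of classes which correspond to Hodge classes of degree
`2 j` under the comparison isomorphism `A` (with coefficients in the coefficient field of `E`). -/
def IsHodgeComb (T : HodgeDecomposition W) (A : Comparison W E E.K) (X : 𝒱.Obj) (j : ℕ)
    (c : E.H X) : Prop :=
  IsComb E.K (IsHodge T X j) (fun x => A.e X (emL W E.K x)) (emL E E.K) c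

end Pool.Agent.Q50.MTC
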