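import Pool.Agent.Q50.MTC.Defs
import Pool.Agent.Q50.FP.Base
import Pool.Agent.Q50.BL.Pol
import Pool.Agent.Q50.BL.Conv2
import Pool.Agent.Y121.AHS.Conv

/-!
# The Hodge operator
-/

open CategoryTheory AlgebraicGeometry TensorProduct

universe u

set_option linter.unusedSectionVars false

namespace Pool.Agent.Q50.MTC

open Module Pool.Agent.H204R3.SP Pool.Agent.W516.DR
open Pool.Agent.H914 Pool.Agent.H914.VarClass Pool.Agent.H914.VarClass.Obj
  Pool.Agent.H914.WeilCohomology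
open Pool.Agent.Y133.Half Pool.Agent.Y121.AH Pool.Agent.Q50.FP
open Pool.Agent.Q50.BL (sg sg_tmul sg_smul cnjK cnjK_apply formQ formQ_apply QC_formQ QC_tmul
  sum_tmul_eq)
open Pool.Agent.Y121.AHS (Ext extEm extSm extMul extSub extMap extForm HL emL mapL)

variable {k : Type u} [Field k] {𝒱 : VarClass k} {ops : CycleOps 𝒱}
  {W : WeilCohomology.{u, 0} ops} [Algebra W.K ℂ] (T : HodgeDecomposition W) {X Y : 𝒱.Obj} {n : ℕ}

/-- The Hodge operator as a linear map. -/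
noncomputable def hC (X : 𝒱.Obj) : Module.End ℂ (ℂ ⊗[W.K] W.H X) where
  toFun x := T.h X x
  map_add' := (T.op X).add
  map_smul' := (T.op X).smul

/-- The Hodge operator on the cohomology with complex coefficients. -/
noncomputable def hh (X : 𝒱.Obj) : Module.End (baseW W ℂ).K ((baseW W ℂ).H X) := hC T X

variable {T}

theorem hC_apply (x : ℂ ⊗[W.K] W.H X) : hC T X x = T.h X x := rfl

theorem hC_types {i : ℕ} {x : ℂ ⊗[W.K] W.H X} (hx : x ∈ (W.gr X i).baseChange ℂ) :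
    ∃ y : ℕ → ℂ ⊗[W.K] W.H X, (∀ p, y p ∈ (W.gr X i).baseChange ℂ ∧
      hC T X (y p) = ((2 * p - i : ℤ) : ℂ) • y p) ∧ x = ∑ p ∈ Finset.range (i + 1), y p := by
  obtain ⟨y, h1, h2⟩ := (T.op X).types i x hx
  refine ⟨y, fun p => ⟨(h1 p).1, ?_⟩, h2⟩
  have h3 := (h1 p).2
  have h4 : ((2 * p - i : ℤ) : ℂ) = 2 * p - i := by push_cast; ring
  rw [h4]
  exact h3

theorem hC_gr {i : ℕ} {x : ℂ ⊗[W.K] W.H X} (hx : x ∈ (W.gr X i).baseChange ℂ) :
    hC T X x ∈ (W.gr X i).baseChange ℂ := by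
  obtain ⟨y, h1, h2⟩ := hC_types (T := T) hx
  rw [h2, map_sum]
  refine Submodule.sum_mem _ fun p _ => ?_
  rw [(h1 p).2]
  exact Submodule.smul_mem _ _ (h1 p).1

theorem isConj_sg (x : ℂ ⊗[W.K] W.H X) : IsConj (K := W.K) (A := W.H X) x
    (sg (W.H X) (cnjK W.K T.rat) x) := by
  obtain ⟨m, l, c, hx⟩ := sum_tmul_eq x
  refine ⟨m, l, c, hx, ?_⟩
  have h1 : sg (W.H X) (cnjK W.K T.rat) x = ∑ i, starRingEnd ℂ (l i) • ((1 : ℂ) ⊗ₜ[W.K] c i) := by
    rw [hx, map_sum]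
    refine Finset.sum_congr rfl fun i _ => ?_
    rw [sg_smul, sg_tmul, map_one, cnjK_apply]
  exact h1

theorem eq_sg {x y : ℂ ⊗[W.K] W.H X} (h : IsConj (K := W.K) (A := W.H X) x y) :
    y = sg (W.H X) (cnjK W.K T.rat) x := by
  obtain ⟨m, l, c, hx, hy⟩ := h
  have hx' : x = ∑ i, l i • ((1 : ℂ) ⊗ₜ[W.K] c i) := hx
  have hy' : y = ∑ i, starRingEnd ℂ (l i) • ((1 : ℂ) ⊗ₜ[W.K] c i) := hy
  rw [hx', hy', map_sum]
  refine Finset.sum_congr rfl fun i _ => ?_
  rw [sg_smul, sg_tmul, map_one, cnjK_apply]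

theorem hC_conj (x : ℂ ⊗[W.K] W.H X) : hC T X (sg (W.H X) (cnjK W.K T.rat) x) =
    -sg (W.H X) (cnjK W.K T.rat) (hC T X x) := by
  have h1 := (T.op X).conj _ _ (isConj_sg (T := T) x)
  have h2 := eq_sg (T := T) h1
  have h3 : -(hC T X (sg (W.H X) (cnjK W.K T.rat) x)) =
    sg (W.H X) (cnjK W.K T.rat) (hC T X x) := h2
  rw [← h3, neg_neg]

theorem exists_pol (T : HodgeDecomposition W) (X : 𝒱.Obj) :
    ∃ Q : LinearMap.BilinForm W.K (W.H X),
      Pool.Agent.Q50.BL.IsPol (cnjK W.K T.rat) (hC T X) Q ∧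
      ∀ i j, i ≠ j → ∀ a ∈ W.gr X i, ∀ b ∈ W.gr X j, Q a b = 0 := by
  obtain ⟨φ, h⟩ := (T.op X).pol
  refine ⟨formQ (W.tr X) φ, ⟨fun x y => ?_, hC_conj, fun j x hx h0 => ?_⟩, ?_⟩
  · have h1 := h.skew x y
    rw [QC_formQ, QC_formQ]
    have h2 : form (W.tr X) φ (T.h X x) y + form (W.tr X) φ x (T.h X y) = 0 := by
      rw [h1, neg_add_cancel]
    exact h2
  · rw [QC_formQ]
    exact h.pos j x _ hx (isConj_sg (T := T) x) h0
  · intro i j hij a ha b hb
    exact h.orth i j hij a ha b hb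

/-- The eigenprojections of the Hodge operator. -/
theorem exists_dec (T : HodgeDecomposition W) (X : 𝒱.Obj) :
    ∃ e, Pool.Agent.Q50.BL.Dec ℂ (2 * X.dim) (hC T X) e := by
  apply Pool.Agent.Q50.BL.exists_dec
  refine LinearMap.ext fun x => ?_
  rw [LinearMap.zero_apply]
  have key : ∀ i, ∀ x ∈ (W.gr X i).baseChange ℂ,
      (Polynomial.aeval (hC T X) (Pool.Agent.Q50.BL.nod ℂ (2 * X.dim))) x = 0 := by
    intro i x hx
    by_cases hi : i ≤ 2 * X.dim
    · obtain ⟨y, h1, h2⟩ := hC_types (T := T) hx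
      rw [h2, map_sum]
      refine Finset.sum_eq_zero fun p hp => ?_
      rw [Pool.Agent.Q50.BL.aeval_eig (h1 p).2]
      have h3 : ((2 * p - i : ℤ)) ∈ Pool.Agent.Q50.BL.ivl (2 * X.dim) := by
        rw [Finset.mem_range] at hp
        rw [Finset.mem_Icc]
        push_cast
        constructor <;> omega
      rw [Pool.Agent.Q50.BL.nod, Lagrange.eval_nodal_at_node h3, zero_smul]
    · rw [W.gr_eq_bot X i (by omega), Submodule.baseChange_bot, Submodule.mem_bot] at hx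
      rw [hx, map_zero]
  induction x using TensorProduct.induction_on with
  | zero => rw [map_zero]
  | add x y hx hy => rw [map_add, hx, hy, add_zero]
  | tmul z v =>
    refine gr_induction (W.isInternal X) (p := fun v =>
      (Polynomial.aeval (hC T X) (Pool.Agent.Q50.BL.nod ℂ (2 * X.dim))) (z ⊗ₜ[W.K] v) = 0)
      ?_ ?_ v
    · intro i a ha
      exact key i _ (Submodule.tmul_mem_baseChange_of_mem _ ha)
    · intro a b ha hb
      rw [TensorProduct.tmul_add, map_add, ha, hb, add_zero]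

/-- The top degree is of type `(d, d)`. -/
theorem hC_top {l : W.H X} (hl : l ∈ W.gr X (2 * X.dim)) (hl1 : W.tr X l = 1) :
    hC T X ((1 : ℂ) ⊗ₜ[W.K] l) = 0 := by
  set v : ℂ ⊗[W.K] W.H X := (1 : ℂ) ⊗ₜ[W.K] l with hv
  have hv0 : v ≠ 0 := by
    intro h0
    have h1 := em_tr (L := ℂ) l
    have h2 : em W ℂ l = 0 := h0
    rw [h2, hl1, map_zero] at h1
    exact (zero_ne_one (α := ℂ)) (h1.trans (map_one (algebraMap W.K ℂ)))
  have h1 : (baseW W ℂ).tr X (em W ℂ l) = 1 := by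
    rw [em_tr, hl1]; exact map_one (algebraMap W.K ℂ)
  have hvg : v ∈ (W.gr X (2 * X.dim)).baseChange ℂ := Submodule.tmul_mem_baseChange_of_mem _ hl
  -- every element of the top degree is a multiple of `v`
  have htop : ∀ y ∈ (W.gr X (2 * X.dim)).baseChange ℂ, ∃ c : ℂ, y = c • v := by
    intro y hy
    exact ⟨_, top_eq (W := baseW W ℂ) (em_gr hl) h1 hy⟩
  obtain ⟨y, hy1, hy2⟩ := hC_types (T := T) hvg
  obtain ⟨p, hp⟩ : ∃ p, y p ≠ 0 := by
    by_contra hcon
    push Not at hcon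
    exact hv0 (hy2.trans (Finset.sum_eq_zero fun p _ => hcon p))
  obtain ⟨c, hc⟩ := htop _ (hy1 p).1
  have hc0 : c ≠ 0 := by
    rintro rfl
    exact hp (hc.trans (zero_smul _ _))
  obtain ⟨j, hj⟩ : ∃ j : ℤ, hC T X v = (j : ℂ) • v := by
    refine ⟨2 * p - (2 * X.dim : ℕ), ?_⟩
    have h2 := (hy1 p).2
    rw [hc, map_smul, smul_comm] at h2
    exact smul_right_injective _ hc0 h2
  obtain ⟨Q, hQ, -⟩ := exists_pol T X
  obtain ⟨t, ht, ht'⟩ := hQ.pos j v hj hv0
  have hsg : sg (W.H X) (cnjK W.K T.rat) v = v := by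
    rw [hv, sg_tmul, map_one]
  rw [hsg] at ht'
  have h2 := hQ.skew v v
  rw [hj, map_smul, LinearMap.smul_apply, map_smul, smul_eq_mul] at h2
  have h3 : Pool.Agent.Q50.BL.QC Q v v ≠ 0 := by
    intro h4
    rw [h4, mul_zero] at ht'
    exact ht.ne' (by exact_mod_cast ht'.symm)
  have h4 : (j : ℂ) = 0 := by
    have h5 : (2 * (j : ℂ)) * Pool.Agent.Q50.BL.QC Q v v = 0 := by linear_combination h2
    have h6 := (mul_eq_zero.1 h5).resolve_right h3
    exact (mul_eq_zero.1 h6).resolve_left two_ne_zero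
  rw [hj, h4, zero_smul]

theorem exists_top [Nontrivial (W.H X)] : ∃ l ∈ W.gr X (2 * X.dim), W.tr X l = 1 := by
  by_contra hcon
  push Not at hcon
  have h1 : ∀ l ∈ W.gr X (2 * X.dim), W.tr X l = 0 := by
    intro l hl
    by_contra h0
    refine hcon ((W.tr X l)⁻¹ • l) (Submodule.smul_mem _ _ hl) ?_
    rw [map_smul, smul_eq_mul, inv_mul_cancel₀ h0]
  have h2 : ∀ x, W.tr X x = 0 := by
    intro x
    refine dg_ind (p := fun x => W.tr X x = 0) ?_ ?_ x
    · intro i x hx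
      by_cases hi : i = 2 * X.dim
      · subst hi
        exact h1 x hx
      · exact W.tr_eq_zero hx hi
    · intro a b ha hb
      rw [map_add, ha, hb, add_zero]
  exact one_ne_zero (W.nondeg (1 : W.H X) fun b => h2 _)

theorem hh_tr (x : (baseW W ℂ).H X) : (baseW W ℂ).tr X (hh T X x) = 0 := by
  rcases subsingleton_or_nontrivial (W.H X) with hs | hn
  · have h1 : ∀ x : (baseW W ℂ).H X, x = 0 := by
      intro x
      refine tmul_ind (p := fun x => x = 0) rfl ?_ ?_ x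
      · rintro x y rfl rfl; rw [add_zero]
      · intro l a
        rw [tmul_eq, Subsingleton.elim a 0, em_zero, smul_zero]
    rw [h1 (hh T X x), map_zero]
  · obtain ⟨l, hl, hl1⟩ := exists_top (W := W) (X := X)
    refine gr_induction ((baseW W ℂ).isInternal X)
      (p := fun x => (baseW W ℂ).tr X (hh T X x) = 0) ?_ ?_ x
    · intro i x hx
      by_cases hi : i = 2 * X.dim
      · subst hi
        have h1 : (baseW W ℂ).tr X (em W ℂ l) = 1 := by
          rw [em_tr, hl1]; exact map_one (algebraMap W.K ℂ)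
        have h2 := top_eq (W := baseW W ℂ) (em_gr hl) h1 hx
        have h3 : hh T X (em W ℂ l) = 0 := hC_top (T := T) hl hl1
        rw [h2, map_smul, h3, smul_zero, map_zero]
      · have h3 : hh T X x ∈ (baseW W ℂ).gr X i := hC_gr hx
        rw [(baseW W ℂ).tr_eq_zero h3 hi]
    · intro a b ha hb; rw [map_add, map_add, ha, hb, add_zero]

theorem hh_drv (T : HodgeDecomposition W) : Drv (baseW W ℂ) (hh T) 0 where
  mul Y x y := (T.op Y).mul x y
  map {Y Z} f z := by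
    have h1 : ∀ z : (baseW W ℂ).H Z, (baseW W ℂ).map f z = mapL (L := ℂ) f z := fun z =>
      Pool.Agent.Y121.AHS.map_eq W ℂ f z
    rw [h1, h1]
    exact T.map Y Z f z
  tr Y x := by
    rw [hh_tr, zero_mul, zero_mul]

theorem hh_cl {j : ℕ} {z : X.Cycles} (hz : X.IsCyc j z) : hh T X (em W ℂ (W.cl X z)) = 0 :=
  T.cyc X j z hz

/-- The components of the Hodge operator. -/
noncomputable def yy (T : HodgeDecomposition W) (X : 𝒱.Obj) (ν : ℂ →ₗ[W.K] W.K) :
    Module.End W.K (W.H X) := cE ν (hh T X)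

theorem yy_kills (ν : ℂ →ₗ[W.K] W.K) {c : W.H (pw X n)}
    (hc : hh T _ (em W ℂ c) = 0) : Kills (yy T X ν) (frm W X n c) :=
  kills_of_drv (hh_drv T) ν hc

theorem hh_of_kills {c : W.H (pw X n)}
    (hc : ∀ ν : ℂ →ₗ[W.K] W.K, Kills (yy T X ν) (frm W X n c)) :
    hh T _ (em W ℂ c) = 0 :=
  drv_of_kills (hh_drv T) hc

theorem yy_trace (ν : ℂ →ₗ[W.K] W.K) (e : Module.End W.K (W.H X)) :
    LinearMap.trace W.K (W.H X) (yy T X ν * e) =
      ν (LinearMap.trace ℂ (ℂ ⊗[W.K] W.H X) (hC T X * e.baseChange ℂ)) :=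
  trace_cmpE_mul ν (hC T X) e

end Pool.Agent.Q50.MTC
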