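import Pool.Agent.Q50.MTC.One

/-!
# The Mumford-Tate algebra and its semisimplicity
-/

open CategoryTheory AlgebraicGeometry TensorProduct

universe u w

set_option linter.unusedSectionVars false

namespace Pool.Agent.Q50.MTC

open Module Pool.Agent.H204R3.SP Pool.Agent.W516.DR
open Pool.Agent.H914 Pool.Agent.H914.VarClass Pool.Agent.H914.VarClass.Obj
  Pool.Agent.H914.WeilCohomology
open Pool.Agent.Y133.Half Pool.Agent.Y121.AH Pool.Agent.Q50.FP Pool.Agent.W516.KC
open Pool.Agent.Q50.BL (sg sg_tmul sg_smul cnjK cnjK_apply QC QC_tmul)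

variable {k : Type u} [Field k] {𝒱 : VarClass k} {ops : CycleOps 𝒱}
  {W : WeilCohomology.{u, 0} ops} [Algebra W.K ℂ] {T : HodgeDecomposition W} {X Y : 𝒱.Obj} {n : ℕ}

/-- The Mumford-Tate algebra: the endomorphisms which kill all forms killed by the components of
the Hodge operator. -/
def mt (T : HodgeDecomposition W) (X : 𝒱.Obj) : Submodule W.K (Module.End W.K (W.H X)) where
  carrier := {Z | ∀ (n : ℕ) (φ : MultilinearMap W.K (fun _ : Fin (n + 1) => W.H X) W.K),
    (∀ ν, Kills (yy T X ν) φ) → Kills Z φ}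
  zero_mem' := by
    intro n φ _ v
    refine Finset.sum_eq_zero fun k _ => ?_
    rw [LinearMap.zero_apply]
    exact φ.map_coord_zero k (Function.update_self _ _ _)
  add_mem' := by
    intro A B hA hB n φ hφ v
    have h1 := hA n φ hφ v
    have h2 := hB n φ hφ v
    have h3 := congrArg₂ (fun x y : W.K => x + y) h1 h2
    simp only [add_zero] at h3
    rw [← h3, ← Finset.sum_add_distrib]
    refine Finset.sum_congr rfl fun k _ => ?_
    rw [LinearMap.add_apply, MultilinearMap.map_update_add]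
  smul_mem' := by
    intro c A hA n φ hφ v
    have h1 := hA n φ hφ v
    rw [← mul_zero c, ← h1, Finset.mul_sum]
    refine Finset.sum_congr rfl fun k _ => ?_
    rw [LinearMap.smul_apply, MultilinearMap.map_update_smul, smul_eq_mul]

theorem mem_mt {Z : Module.End W.K (W.H X)} : Z ∈ mt T X ↔
    ∀ (n : ℕ) (φ : MultilinearMap W.K (fun _ : Fin (n + 1) => W.H X) W.K),
      (∀ ν, Kills (yy T X ν) φ) → Kills Z φ := Iff.rfl

theorem yy_mt (ν : ℂ →ₗ[W.K] W.K) : yy T X ν ∈ mt T X := fun _ _ h => h ν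

theorem mt_br : ∀ A ∈ mt T X, ∀ B ∈ mt T X, A * B - B * A ∈ mt T X :=
  fun _ hA _ hB n φ hφ => kills_bracket (hA n φ hφ) (hB n φ hφ)

/-- The Mumford-Tate algebra kills the forms of any index set. -/
theorem mt_kills {κ : Type} [Fintype κ] [DecidableEq κ]
    {φ : MultilinearMap W.K (fun _ : κ => W.H X) W.K} (hφ : ∀ ν, Kills (yy T X ν) φ)
    {Z : Module.End W.K (W.H X)} (hZ : Z ∈ mt T X) : Kills Z φ := by
  rcases isEmpty_or_nonempty κ with h | h
  · intro v
    rw [Finset.univ_eq_empty, Finset.sum_empty]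
  · obtain ⟨n, hn⟩ : ∃ n, Fintype.card κ = n + 1 :=
      ⟨Fintype.card κ - 1, by have := Fintype.card_pos (α := κ); omega⟩
    let e : κ ≃ Fin (n + 1) := Fintype.equivFinOfCardEq hn
    exact (kills_reindex e).1 (hZ n _ fun ν => (kills_reindex e).2 (hφ ν))

/-! ### The duality form -/

theorem lam_neg' (ν : ℂ →ₗ[W.K] W.K) (x : (baseW W ℂ).K) : lam ν (-x) = -lam ν x := map_neg ν x

/-- The components of the values of the Hodge operator. -/
theorem yy_apply (ν : ℂ →ₗ[W.K] W.K) (x : W.H X) : yy T X ν x = cC ν (hh T X (em W ℂ x)) := rfl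

theorem prg_cC (ν : ℂ →ₗ[W.K] W.K) (z : (baseW W ℂ).H X) (b : W.H X) :
    prg W X (cC ν z) b = lam ν (prg (baseW W ℂ) X z (em W ℂ b)) := by
  refine base_ind (p := fun z => prg W X (cC ν z) b =
    lam ν (prg (baseW W ℂ) X z (em W ℂ b))) ?_ ?_ z
  · intro l x
    rw [cC_smul_em, map_smul, LinearMap.smul_apply, map_smul, LinearMap.smul_apply, base_prg,
      smul_eq_mul, smul_eq_mul]
    exact (lam_mul_ex ν l _).symm
  · intro a b' ha hb
    rw [cC_add, map_add, LinearMap.add_apply, ha, hb, map_add, LinearMap.add_apply]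
    exact (lam_add ν _ _).symm

theorem prg_cC' (ν : ℂ →ₗ[W.K] W.K) (z : (baseW W ℂ).H X) (b : W.H X) :
    prg W X b (cC ν z) = lam ν (prg (baseW W ℂ) X (em W ℂ b) z) := by
  refine base_ind (p := fun z => prg W X b (cC ν z) =
    lam ν (prg (baseW W ℂ) X (em W ℂ b) z)) ?_ ?_ z
  · intro l x
    rw [cC_smul_em, map_smul, map_smul, base_prg, smul_eq_mul, smul_eq_mul]
    exact (lam_mul_ex ν l _).symm
  · intro a b' ha hb
    rw [cC_add, map_add, ha, hb, map_add]
    exact (lam_add ν _ _).symm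

theorem hh_skew (x y : (baseW W ℂ).H X) : prg (baseW W ℂ) X (hh T X x) y =
    -prg (baseW W ℂ) X x (hh T X y) := by
  rw [prg_apply, prg_apply]
  have h1 := (hh_drv T).tr X (x * y)
  rw [(hh_drv T).mul, map_add, zero_mul, zero_mul] at h1
  exact eq_neg_of_add_eq_zero_left h1

theorem yy_skew (ν : ℂ →ₗ[W.K] W.K) : IsSkew (prg W X) (yy T X ν) := by
  intro a b
  rw [yy_apply, yy_apply, prg_cC, prg_cC', hh_skew, lam_neg', neg_add_cancel]

theorem mt_skew {Z : Module.End W.K (W.H X)} (hZ : Z ∈ mt T X) : IsSkew (prg W X) Z :=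
  (kills_two _ _).1 (mt_kills (fun ν => (kills_two _ _).2 (yy_skew ν)) hZ)

/-- The form given by an endomorphism which commutes with the components of the Hodge operator. -/
theorem yy_kills_two {P : Module.End W.K (W.H X)} (hP : ∀ ν, yy T X ν * P = P * yy T X ν)
    (ν : ℂ →ₗ[W.K] W.K) : Kills (yy T X ν) (two ((prg W X).comp P)) := by
  rw [kills_two]
  intro u v
  rw [LinearMap.comp_apply, LinearMap.comp_apply]
  have h1 := yy_skew (T := T) ν (P u) v
  have h2 : yy T X ν (P u) = P (yy T X ν u) := LinearMap.congr_fun (hP ν) u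
  rwa [h2] at h1

/-- The Mumford-Tate algebra commutes with the endomorphisms which commute with the components of
the Hodge operator. -/
theorem mt_comm {P : Module.End W.K (W.H X)} (hP : ∀ ν, yy T X ν * P = P * yy T X ν)
    {Z : Module.End W.K (W.H X)} (hZ : Z ∈ mt T X) : Z * P = P * Z := by
  have h3 := (kills_two _ _).1 (mt_kills (yy_kills_two hP) hZ)
  refine end_ext fun u v => ?_
  have h4 := h3 u v
  have h5 := mt_skew hZ (P u) v
  rw [LinearMap.comp_apply, LinearMap.comp_apply] at h4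
  rw [Module.End.mul_apply, Module.End.mul_apply]
  linear_combination h5 - h4

/-! ### The degree operator -/

theorem hh_gr {i : ℕ} {x : (baseW W ℂ).H X} (hx : x ∈ (baseW W ℂ).gr X i) :
    hh T X x ∈ (baseW W ℂ).gr X i := hC_gr hx

theorem hh_dg (x : (baseW W ℂ).H X) : hh T X (dg (baseW W ℂ) X x) =
    dg (baseW W ℂ) X (hh T X x) := by
  refine dg_ind (p := fun x => hh T X (dg (baseW W ℂ) X x) =
    dg (baseW W ℂ) X (hh T X x)) ?_ ?_ x
  · intro i x hx
    rw [dg_of hx, dg_of (hh_gr hx), map_smul]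
  · intro a b ha hb
    rw [map_add, map_add, ha, hb, map_add, map_add]

theorem em_dg (x : W.H X) : em W ℂ (dg W X x) = dg (baseW W ℂ) X (em W ℂ x) := by
  refine dg_ind (p := fun x => em W ℂ (dg W X x) = dg (baseW W ℂ) X (em W ℂ x)) ?_ ?_ x
  · intro i x hx
    rw [dg_of hx, dg_of (em_gr hx), em_smul]
    congr 1
    exact map_natCast (algebraMap W.K ℂ) i
  · intro a b ha hb
    rw [map_add, em_add, em_add, map_add, ha, hb]

theorem cC_dg (ν : ℂ →ₗ[W.K] W.K) (z : (baseW W ℂ).H X) :
    cC ν (dg (baseW W ℂ) X z) = dg W X (cC ν z) := by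
  refine base_ind (p := fun z => cC ν (dg (baseW W ℂ) X z) = dg W X (cC ν z)) ?_ ?_ z
  · intro l x
    rw [map_smul, ← em_dg, cC_smul_em, cC_smul_em, map_smul]
  · intro a b ha hb
    rw [map_add, cC_add, cC_add, map_add, ha, hb]

theorem yy_dg (ν : ℂ →ₗ[W.K] W.K) : yy T X ν * dg W X = dg W X * yy T X ν := by
  refine LinearMap.ext fun x => ?_
  rw [Module.End.mul_apply, Module.End.mul_apply, yy_apply, yy_apply, em_dg, hh_dg, cC_dg]

theorem yy_dn (ν : ℂ →ₗ[W.K] W.K) : yy T X ν * dn W X = dn W X * yy T X ν := by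
  rw [dn, mul_sub, sub_mul, yy_dg, mul_smul_comm, smul_mul_assoc, mul_one, one_mul]

theorem mt_dn {Z : Module.End W.K (W.H X)} (hZ : Z ∈ mt T X) : Z * dn W X = dn W X * Z :=
  mt_comm yy_dn hZ

/-- The Mumford-Tate algebra, extended by the degree operator. -/
noncomputable def mtp (T : HodgeDecomposition W) (X : 𝒱.Obj) :
    Submodule W.K (Module.End W.K (W.H X)) := mt T X ⊔ Submodule.span W.K {dn W X}

theorem mem_mtp {Z : Module.End W.K (W.H X)} :
    Z ∈ mtp T X ↔ ∃ A ∈ mt T X, ∃ r : W.K, Z = A + r • dn W X := by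
  rw [mtp, Submodule.mem_sup]
  constructor
  · rintro ⟨A, hA, B, hB, rfl⟩
    obtain ⟨r, rfl⟩ := Submodule.mem_span_singleton.1 hB
    exact ⟨A, hA, r, rfl⟩
  · rintro ⟨A, hA, r, rfl⟩
    exact ⟨A, hA, _, Submodule.smul_mem _ _ (Submodule.mem_span_singleton_self _), rfl⟩

theorem mt_le : mt T X ≤ mtp T X := le_sup_left

theorem dn_mtp : dn W X ∈ mtp T X :=
  Submodule.mem_sup_right (Submodule.mem_span_singleton_self _)

theorem mtp_br : ∀ A ∈ mtp T X, ∀ B ∈ mtp T X, A * B - B * A ∈ mtp T X := by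
  intro A hA B hB
  obtain ⟨A, hA', r, rfl⟩ := mem_mtp.1 hA
  obtain ⟨B, hB', t, rfl⟩ := mem_mtp.1 hB
  have h1 : (A + r • dn W X) * (B + t • dn W X) - (B + t • dn W X) * (A + r • dn W X) =
      A * B - B * A := by
    have h2 := mt_dn hA'
    have h3 := mt_dn hB'
    simp only [add_mul, mul_add, mul_smul_comm, smul_mul_assoc, h2, h3, smul_add, smul_smul,
      mul_comm t r]
    abel
  rw [h1]
  exact mt_le (mt_br A hA' B hB')

theorem mtp_skew {Z : Module.End W.K (W.H X)} (hZ : Z ∈ mtp T X) : IsSkew (prg W X) Z := by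
  obtain ⟨A, hA, r, rfl⟩ := mem_mtp.1 hZ
  intro u v
  have h1 := mt_skew hA u v
  have h2 := dn_skew (W := W) (X := X) u v
  simp only [LinearMap.add_apply, LinearMap.smul_apply, map_add, map_smul, smul_eq_mul]
  linear_combination h1 + r * h2

/-! ### Semisimplicity -/

/-- A vector all of whose components are in a subspace is in the extension of the subspace. -/
theorem mem_baseChange_of_cC {U : Submodule W.K (W.H X)} {z : ℂ ⊗[W.K] W.H X}
    (h : ∀ ν : ℂ →ₗ[W.K] W.K, cC ν z ∈ U) : z ∈ U.baseChange ℂ := by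
  classical
  -- a basis of `ℂ` over the rational numbers
  let β := Basis.ofVectorSpace W.K ℂ
  obtain ⟨s, c, hz⟩ : ∃ (s : Finset (Basis.ofVectorSpaceIndex W.K ℂ))
      (c : Basis.ofVectorSpaceIndex W.K ℂ → W.H X), z = ∑ i ∈ s, β i ⊗ₜ[W.K] c i := by
    induction z using TensorProduct.induction_on with
    | zero => exact ⟨∅, fun _ => 0, by rw [Finset.sum_empty]⟩
    | tmul l x =>
      refine ⟨(β.repr l).support, fun i => β.repr l i • x, ?_⟩
      conv_lhs => rw [← β.linearCombination_repr l, Finsupp.linearCombination_apply, Finsupp.sum,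
        TensorProduct.sum_tmul]
      exact Finset.sum_congr rfl fun i _ => TensorProduct.smul_tmul _ _ _
    | add x y hx hy =>
      -- use the components
      have key : ∀ z : ℂ ⊗[W.K] W.H X, ∃ (s : Finset (Basis.ofVectorSpaceIndex W.K ℂ))
          (c : Basis.ofVectorSpaceIndex W.K ℂ → W.H X), z = ∑ i ∈ s, β i ⊗ₜ[W.K] c i := by
        intro z
        induction z using TensorProduct.induction_on with
        | zero => exact ⟨∅, fun _ => 0, by rw [Finset.sum_empty]⟩
        | tmul l x =>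
          refine ⟨(β.repr l).support, fun i => β.repr l i • x, ?_⟩
          conv_lhs => rw [← β.linearCombination_repr l, Finsupp.linearCombination_apply,
            Finsupp.sum, TensorProduct.sum_tmul]
          exact Finset.sum_congr rfl fun i _ => TensorProduct.smul_tmul _ _ _
        | add x y hx hy =>
          obtain ⟨s, c, hx⟩ := hx
          obtain ⟨t, d, hy⟩ := hy
          refine ⟨s ∪ t, fun i => (if i ∈ s then c i else 0) + (if i ∈ t then d i else 0), ?_⟩
          have h1 : ∑ i ∈ s, β i ⊗ₜ[W.K] c i =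
              ∑ i ∈ s ∪ t, β i ⊗ₜ[W.K] (if i ∈ s then c i else 0) := by
            refine (Finset.sum_subset_zero_on_sdiff Finset.subset_union_left ?_ ?_)
            · intro i hi
              rw [if_neg (Finset.mem_sdiff.1 hi).2, TensorProduct.tmul_zero]
            · intro i hi
              rw [if_pos hi]
          have h2 : ∑ i ∈ t, β i ⊗ₜ[W.K] d i =
              ∑ i ∈ s ∪ t, β i ⊗ₜ[W.K] (if i ∈ t then d i else 0) := by
            refine (Finset.sum_subset_zero_on_sdiff Finset.subset_union_right ?_ ?_)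
            · intro i hi
              rw [if_neg (Finset.mem_sdiff.1 hi).2, TensorProduct.tmul_zero]
            · intro i hi
              rw [if_pos hi]
          rw [hx, hy, h1, h2, ← Finset.sum_add_distrib]
          exact Finset.sum_congr rfl fun i _ => (TensorProduct.tmul_add _ _ _).symm
      exact key _
  rw [hz]
  refine Submodule.sum_mem _ fun i hi => Submodule.tmul_mem_baseChange_of_mem _ ?_
  have h1 := h (β.coord i)
  have h2 : cC (β.coord i) z = c i := by
    have h3 : cC (β.coord i) z = cmp (k := W.K) (L := ℂ) (W := W.H X) (β.coord i) z := rfl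
    rw [h3, hz, map_sum, Finset.sum_eq_single i]
    · rw [cmp_tmul, Basis.coord_apply, β.repr_self, Finsupp.single_eq_same, one_smul]
    · intro j _ hj
      rw [cmp_tmul, Basis.coord_apply, β.repr_self, Finsupp.single_eq_of_ne (Ne.symm hj),
        zero_smul]
    · intro h
      exact absurd hi h
  rwa [h2] at h1

/-- The rational orthogonal complement for a polarisation. -/
theorem exists_complement {U : Submodule W.K (W.H X)}
    (hU : ∀ ν, ∀ u ∈ U, yy T X ν u ∈ U) (hd : ∀ u ∈ U, dg W X u ∈ U) :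
    ∃ U' : Submodule W.K (W.H X), (∀ ν, ∀ u ∈ U', yy T X ν u ∈ U') ∧
      (∀ u ∈ U', dg W X u ∈ U') ∧ IsCompl U U' := by
  obtain ⟨Q, hQ, horth⟩ := exists_pol T X
  obtain ⟨e, he⟩ := exists_dec T X
  let U' : Submodule W.K (W.H X) :=
    { carrier := {v | ∀ u ∈ U, Q v u = 0}
      zero_mem' := fun u _ => by rw [map_zero, LinearMap.zero_apply]
      add_mem' := fun {a b} ha hb u hu => by
        rw [map_add, LinearMap.add_apply, ha u hu, hb u hu, add_zero]
      smul_mem' := fun r a ha u hu => by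
        rw [map_smul, LinearMap.smul_apply, ha u hu, smul_zero] }
  have hmem : ∀ v, v ∈ U' ↔ ∀ u ∈ U, Q v u = 0 := fun v => Iff.rfl
  -- the components are skew
  have hskew : ∀ ν a b, Q (yy T X ν a) b + Q a (yy T X ν b) = 0 := by
    intro ν a b
    have h1 : ∀ (z : (baseW W ℂ).H X) (b : W.H X),
        Q (cC ν z) b = ν (QC Q z ((1 : ℂ) ⊗ₜ[W.K] b)) := by
      intro z b
      refine base_ind (p := fun z => Q (cC ν z) b = ν (QC Q z ((1 : ℂ) ⊗ₜ[W.K] b))) ?_ ?_ z
      · intro l x
        have h2 : QC Q (l • em W ℂ x) ((1 : ℂ) ⊗ₜ[W.K] b) =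
            (show ℂ from l) * algebraMap W.K ℂ (Q x b) := by
          have h3 : QC Q ((show ℂ from l) • ((1 : ℂ) ⊗ₜ[W.K] x)) ((1 : ℂ) ⊗ₜ[W.K] b) =
              (show ℂ from l) * algebraMap W.K ℂ (Q x b) := by
            rw [map_smul, LinearMap.smul_apply, QC_tmul, smul_eq_mul]
            ring
          exact h3
        rw [cC_smul_em, map_smul, LinearMap.smul_apply, h2, smul_eq_mul]
        exact (lam_mul_ex ν l (Q x b)).symm
      · intro a b' ha hb
        have h2 : QC Q (a + b') ((1 : ℂ) ⊗ₜ[W.K] b) =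
            QC Q a ((1 : ℂ) ⊗ₜ[W.K] b) + QC Q b' ((1 : ℂ) ⊗ₜ[W.K] b) := by
          have h3 := map_add (QC Q) a b'
          exact (LinearMap.congr_fun h3 _).trans (LinearMap.add_apply _ _ _)
        rw [cC_add, map_add, LinearMap.add_apply, ha, hb, h2, map_add]
    have h2 : ∀ (z : (baseW W ℂ).H X) (b : W.H X),
        Q b (cC ν z) = ν (QC Q ((1 : ℂ) ⊗ₜ[W.K] b) z) := by
      intro z b
      refine base_ind (p := fun z => Q b (cC ν z) = ν (QC Q ((1 : ℂ) ⊗ₜ[W.K] b) z)) ?_ ?_ z
      · intro l x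
        have h2 : QC Q ((1 : ℂ) ⊗ₜ[W.K] b) (l • em W ℂ x) =
            (show ℂ from l) * algebraMap W.K ℂ (Q b x) := by
          have h3 : QC Q ((1 : ℂ) ⊗ₜ[W.K] b) ((show ℂ from l) • ((1 : ℂ) ⊗ₜ[W.K] x)) =
              (show ℂ from l) * algebraMap W.K ℂ (Q b x) := by
            rw [map_smul, QC_tmul, smul_eq_mul]
            ring
          exact h3
        rw [cC_smul_em, map_smul, h2, smul_eq_mul]
        exact (lam_mul_ex ν l (Q b x)).symm
      · intro a b' ha hb
        have h2 : QC Q ((1 : ℂ) ⊗ₜ[W.K] b) (a + b') =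
            QC Q ((1 : ℂ) ⊗ₜ[W.K] b) a + QC Q ((1 : ℂ) ⊗ₜ[W.K] b) b' :=
          map_add (QC Q ((1 : ℂ) ⊗ₜ[W.K] b)) a b'
        rw [cC_add, map_add, ha, hb, h2, map_add]
    have h3 := hQ.skew ((1 : ℂ) ⊗ₜ[W.K] a) ((1 : ℂ) ⊗ₜ[W.K] b)
    rw [yy_apply, yy_apply, h1, h2, ← map_add]
    exact (congrArg ν h3).trans (map_zero ν)
  -- the degree operator is symmetric
  have hdeg : ∀ a b, Q (dg W X a) b = Q a (dg W X b) := by
    intro a b
    refine dg_ind (p := fun a => Q (dg W X a) b = Q a (dg W X b)) ?_ ?_ a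
    · intro i a ha
      refine dg_ind (p := fun b => Q (dg W X a) b = Q a (dg W X b)) ?_ ?_ b
      · intro j b hb
        rw [dg_of ha, dg_of hb, map_smul, map_smul, LinearMap.smul_apply]
        by_cases hij : i = j
        · rw [hij]
        · rw [horth i j hij a ha b hb, smul_zero, smul_zero]
      · intro b b' hb hb'
        rw [map_add, hb, hb', map_add, map_add]
    · intro a a' ha ha'
      rw [map_add, map_add, LinearMap.add_apply, ha, ha', map_add, LinearMap.add_apply]
  have hstab : ∀ ν, ∀ u ∈ U', yy T X ν u ∈ U' := by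
    intro ν v hv u hu
    have h1 := hskew ν v u
    rw [hv _ (hU ν u hu), add_zero] at h1
    exact h1
  have hdstab : ∀ u ∈ U', dg W X u ∈ U' := by
    intro v hv u hu
    rw [hdeg]
    exact hv _ (hd u hu)
  -- the extension of `U`
  have hUC : ∀ z ∈ U.baseChange ℂ, hC T X z ∈ U.baseChange ℂ := by
    intro z hz
    refine base_induction (P := fun z => hC T X z ∈ U.baseChange ℂ) ?_ ?_ ?_ hz
    · rw [map_zero]; exact Submodule.zero_mem _
    · intro x y hx hy
      rw [map_add]; exact Submodule.add_mem _ hx hy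
    · intro l a ha
      have h1 : (l ⊗ₜ[W.K] a : ℂ ⊗[W.K] W.H X) = l • ((1 : ℂ) ⊗ₜ[W.K] a) := by
        rw [TensorProduct.smul_tmul', smul_eq_mul, mul_one]
      rw [h1, map_smul]
      refine Submodule.smul_mem _ _ (mem_baseChange_of_cC fun ν => ?_)
      exact hU ν a ha
  have hUa : ∀ (p : Polynomial ℂ), ∀ z ∈ U.baseChange ℂ,
      (Polynomial.aeval (hC T X) p) z ∈ U.baseChange ℂ := by
    intro p z hz
    induction p using Polynomial.induction_on with
    | C a =>
      rw [Polynomial.aeval_C, Module.algebraMap_end_apply]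
      exact Submodule.smul_mem _ _ hz
    | add p q hp hq =>
      rw [map_add, LinearMap.add_apply]
      exact Submodule.add_mem _ hp hq
    | monomial n a ih =>
      rw [pow_succ', ← mul_assoc, mul_comm (Polynomial.C a), mul_assoc, map_mul,
        Polynomial.aeval_X, Module.End.mul_apply]
      exact hUC _ ih
  have hdisj : Disjoint U U' := by
    rw [Submodule.disjoint_def]
    intro x hx hx'
    by_contra h0
    have hx0 : ((1 : ℂ) ⊗ₜ[W.K] x : ℂ ⊗[W.K] W.H X) ≠ 0 := by
      intro h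
      exact h0 (tmul_injective (L := ℂ) x h)
    obtain ⟨r, hr, h1⟩ := hQ.weil_pos he hx0
    rw [sg_tmul, map_one] at h1
    have h2 : ∀ z ∈ U.baseChange ℂ, QC Q ((1 : ℂ) ⊗ₜ[W.K] x) z = 0 := by
      intro z hz
      refine base_induction (P := fun z => QC Q ((1 : ℂ) ⊗ₜ[W.K] x) z = 0) ?_ ?_ ?_ hz
      · rw [map_zero]
      · intro a b ha hb
        rw [map_add, ha, hb, add_zero]
      · intro l a ha
        rw [QC_tmul, hx' a ha, map_zero, zero_mul]
    have h3 := h2 _ (hUa (Pool.Agent.Q50.BL.wl (2 * X.dim)) _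
      (Submodule.tmul_mem_baseChange_of_mem (1 : ℂ) hx))
    rw [h3] at h1
    exact hr.ne' (by exact_mod_cast h1.symm)
  refine ⟨U', hstab, hdstab, hdisj, ?_⟩
  -- the dimensions
  let f : W.H X →ₗ[W.K] Module.Dual W.K U := (LinearMap.lcomp W.K W.K U.subtype) ∘ₗ Q
  have hf : LinearMap.ker f = U' := by
    ext v
    rw [LinearMap.mem_ker, hmem]
    constructor
    · intro h1 u hu
      exact congrArg (fun g : Module.Dual W.K U => g ⟨u, hu⟩) h1
    · intro h1
      apply LinearMap.ext
      rintro ⟨u, hu⟩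
      exact h1 u hu
  rw [codisjoint_iff]
  have h1 := LinearMap.finrank_range_add_finrank_ker f
  have h2 : finrank W.K (LinearMap.range f) ≤ finrank W.K U :=
    (Submodule.finrank_le _).trans (Subspace.dual_finrank_eq (K := W.K) (V := U)).le
  have h3 := Submodule.finrank_sup_add_finrank_inf_eq U U'
  rw [disjoint_iff.1 hdisj, finrank_bot, add_zero] at h3
  apply Submodule.eq_top_of_finrank_eq
  apply le_antisymm (Submodule.finrank_le _)
  rw [h3]
  rw [hf] at h1
  omega

/-- **The Mumford-Tate algebra acts semisimply.** -/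
theorem mtp_semi : Semi (mtp T X) := by
  intro U hU
  have hd : ∀ u ∈ U, dg W X u ∈ U := by
    intro u hu
    have h1 := hU _ dn_mtp u hu
    have h2 : dg W X u = dn W X u + (X.dim : W.K) • u := by
      rw [dn, LinearMap.sub_apply, LinearMap.smul_apply, Module.End.one_apply, sub_add_cancel]
    rw [h2]
    exact U.add_mem h1 (U.smul_mem _ hu)
  obtain ⟨U', h1, h2, h3⟩ := exists_complement (T := T) (fun ν u hu => hU _ (mt_le (yy_mt ν)) u hu)
    hd
  refine ⟨U', ?_, h3⟩
  -- the projection to `U`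
  let P : Module.End W.K (W.H X) := U'.projection U h3.symm
  have hP : ∀ ν, yy T X ν * P = P * yy T X ν := by
    intro ν
    refine LinearMap.ext fun x => ?_
    exact proj_comm h3.symm (h1 ν) (fun u hu => hU _ (mt_le (yy_mt ν)) u hu) x
  intro Z hZ u hu
  obtain ⟨A, hA, r, rfl⟩ := mem_mtp.1 hZ
  rw [LinearMap.add_apply, LinearMap.smul_apply]
  refine U'.add_mem ?_ (U'.smul_mem _ ?_)
  · have h4 : P u = u := Submodule.projection_apply_of_mem_left h3.symm hu
    have h5 : A u = P (A u) := by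
      conv_lhs => rw [← h4]
      exact LinearMap.congr_fun (mt_comm hP hA) u
    rw [h5]
    change U'.projection U h3.symm (A u) ∈ U'
    rw [Submodule.projection_apply]
    exact SetLike.coe_mem _
  · rw [dn, LinearMap.sub_apply]
    exact U'.sub_mem (h2 u hu) (U'.smul_mem _ hu)

end Pool.Agent.Q50.MTC
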