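import Pool.Agent.Q50.MTC.Th
import Pool.Agent.Q50.FP.Artin
import Pool.Agent.Q50.FP.Desc

/-!
# The first inclusion: the Hodge operator is in the Lie algebra of the Tate classes
-/

open CategoryTheory AlgebraicGeometry TensorProduct

universe u w

set_option linter.unusedSectionVars false

namespace Pool.Agent.Q50.MTC

open Module Pool.Agent.H204R3.SP Pool.Agent.W516.DR Pool.Agent.TH119.DR
open Pool.Agent.H914 Pool.Agent.H914.VarClass Pool.Agent.H914.VarClass.Obj
  Pool.Agent.H914.WeilCohomology
open Pool.Agent.Y133.Half Pool.Agent.Y121.AH Pool.Agent.Q50.FP Pool.Agent.W516.KC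
open Pool.Agent.Q55 (GaloisAction SubAction Virtually TateConj tatePred)
open Pool.Agent.Q60.TD (SemisimpleAt)

variable {k : Type u} [Field k] {𝒱 : VarClass k} {ops : CycleOps 𝒱}

section galp

variable {E : WeilCohomology.{u, 0} ops} {X Y : 𝒱.Obj} {n : ℕ} {Γ : Type w} [Group Γ]
  {G : GaloisAction E Γ}

theorem kills_two_form
    (h2 : ∀ c, Pool.Agent.Q55.IsTate G (pw X 1) X.dim c → c ∈ spanCycles E (pw X 1) X.dim)
    {Z : Module.End E.K (E.H X)} (hZ : KillsAlg E X Z)
    {φ : MultilinearMap E.K (fun _ : Fin 2 => E.H X) E.K} (hφ : TForm G X X.dim φ) :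
    Kills Z φ := by
  obtain ⟨c, rfl⟩ := frm_surjective (n := 1) φ
  exact hZ.span (h2 c (tate_of_tform (j := X.dim) (by rw [dim_pw]; ring) hφ))

/-- **The main theorem on the `ℓ`-adic side.** -/
theorem mem_galp_of' (hlog : HasLogs G X) (hss : ∀ i, SemisimpleAt G X i)
    (h2 : ∀ c, Pool.Agent.Q55.IsTate G (pw X 1) X.dim c → c ∈ spanCycles E (pw X 1) X.dim)
    {Z θ : Module.End E.K (E.H X)} (hZ : KillsAlg E X Z)
    (hZ4 : ∀ φ : MultilinearMap E.K (fun _ : Fin 4 => E.H X) E.K,
      TForm G X (2 * X.dim) φ → Kills Z φ)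
    (hθ : θ ∈ gal G X)
    (htr : ∀ z : (pw X 1).Cycles, (pw X 1).IsCyc X.dim z → ∀ e : Module.End E.K (E.H X),
      (∀ v, frm E X 1 (E.cl _ z) v = prg E X (e (v 0)) (v 1)) →
        LinearMap.trace E.K _ (Z * e) = LinearMap.trace E.K _ (θ * e)) :
    Z ∈ galp G X := by
  have hskew : IsSkew (prg E X) Z :=
    (kills_two _ _).1 (kills_two_form h2 hZ (tform_prg (G := G)))
  refine core (galp G X) (galp_semi hss) galp_br (prg E X) prg_nondeg hskew ?_ ?_
    (gal_le hθ) ?_
  · -- the Casimir form
    let e : Fin 2 × Fin 2 ≃ Fin 4 := finProdFinEquiv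
    have h1 := tform_reindex e (tform_cas hlog hss)
    exact (kills_reindex e).1 (hZ4 _ h1)
  · -- the commutant
    intro P hP
    have h1 := kills_two_form h2 hZ (tform_of_comm hlog hP)
    rw [kills_two] at h1
    refine end_ext fun u v => ?_
    have h2 := h1 u v
    have h3 := hskew (P u) v
    rw [LinearMap.comp_apply, LinearMap.comp_apply] at h2
    rw [Module.End.mul_apply, Module.End.mul_apply]
    linear_combination h3 - h2
  · -- the traces
    intro e he
    have h1 := tform_of_comm hlog he.1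
    obtain ⟨c, hc⟩ := frm_surjective (two ((prg E X).comp e))
    rw [← hc] at h1
    have h3 := h2 _ (tate_of_tform (j := X.dim) (by rw [dim_pw]; ring) h1)
    -- the property for all combinations of cycles
    have key : ∀ c ∈ spanCycles E (pw X 1) (X.dim : ℕ), ∀ e : Module.End E.K (E.H X),
        (∀ v, frm E X 1 c v = prg E X (e (v 0)) (v 1)) →
        LinearMap.trace E.K _ (Z * e) = LinearMap.trace E.K _ (θ * e) := by
      intro c hc
      unfold spanCycles at hc
      induction hc using Submodule.span_induction with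
      | mem x h =>
        obtain ⟨p, hp, z, hz, rfl⟩ := h
        obtain rfl : p = X.dim := by exact_mod_cast hp
        exact htr z hz
      | zero =>
        intro e he
        have h4 : e = 0 := end_ext fun u v => by
          have h5 := he ![u, v]
          have h6 : frm E X 1 0 = 0 := map_zero (frmL E X 1)
          rw [h6] at h5
          change (0 : E.K) = prg E X (e u) v at h5
          rw [← h5, LinearMap.zero_apply, map_zero, LinearMap.zero_apply]
        rw [h4, mul_zero, mul_zero]
      | add a b _ _ ha hb =>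
        intro e he
        obtain ⟨ea, hea⟩ := exists_end a
        obtain ⟨eb, heb⟩ := exists_end b
        have h4 : e = ea + eb := end_ext fun u v => by
          have h5 := he ![u, v]
          rw [frm_add] at h5
          have h6 := hea ![u, v]
          have h7 := heb ![u, v]
          change frm E X 1 a ![u, v] + frm E X 1 b ![u, v] = prg E X (e u) v at h5
          change frm E X 1 a ![u, v] = prg E X (ea u) v at h6
          change frm E X 1 b ![u, v] = prg E X (eb u) v at h7
          rw [← h5, h6, h7, LinearMap.add_apply, map_add, LinearMap.add_apply]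
        rw [h4, mul_add, mul_add, map_add, map_add, ha ea hea, hb eb heb]
      | smul r a _ ha =>
        intro e he
        obtain ⟨ea, hea⟩ := exists_end a
        have h4 : e = r • ea := end_ext fun u v => by
          have h5 := he ![u, v]
          rw [frm_smul] at h5
          have h6 := hea ![u, v]
          change r • frm E X 1 a ![u, v] = prg E X (e u) v at h5
          change frm E X 1 a ![u, v] = prg E X (ea u) v at h6
          rw [← h5, h6, LinearMap.smul_apply, map_smul, LinearMap.smul_apply]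
        rw [h4, mul_smul_comm, mul_smul_comm, map_smul, map_smul, ha ea hea]
    refine key c h3 e fun v => ?_
    rw [hc]
    rfl

end galp

variable {W E : WeilCohomology.{u, 0} ops} [Algebra W.K ℂ] [Algebra W.K E.K] [Algebra E.K ℂ]
  {T : HodgeDecomposition W} {X Y : 𝒱.Obj} {n : ℕ} {Γ : Type w} [Group Γ] {G : GaloisAction E Γ}

theorem alg_tower (hrat : ∀ r : W.K, ∃ q : ℚ, (q : W.K) = r) (r : W.K) :
    algebraMap E.K ℂ (algebraMap W.K E.K r) = algebraMap W.K ℂ r := by
  obtain ⟨q, rfl⟩ := hrat r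
  rw [map_ratCast, map_ratCast, map_ratCast]

/-- The components of the transported Hodge operators are elements of the Lie algebra. -/
theorem theta_gal (C : Comparison (baseW W ℂ) (baseW E ℂ))
    (hT : ∀ (Y : 𝒱.Obj) (j : ℕ) (c : E.H Y), Pool.Agent.Q55.IsTate G Y j c →
      theta C T Y (em E ℂ c) = 0) (lam : ℂ →ₗ[E.K] E.K) :
    cE lam (theta C T X) ∈ gal G X := by
  intro n M φ hφ
  obtain ⟨c, rfl⟩ := frm_surjective φ
  rcases tform_le hφ with hM | rfl
  · have h1 := tate_of_tform (j := (pw X n).dim - M) (by omega) hφ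
    exact kills_of_drv (theta_drv C) lam (hT _ _ _ h1)
  · have h1 : frm E X n 0 = 0 := map_zero (frmL E X n)
    rw [h1]
    exact kills_zero

/-- The trace of the product of the Hodge operator and a rational endomorphism. -/
noncomputable def trh (T : HodgeDecomposition W) (X : 𝒱.Obj) :
    Module.End W.K (W.H X) →ₗ[W.K] ℂ where
  toFun e := LinearMap.trace ℂ (ℂ ⊗[W.K] W.H X) (hC T X * e.baseChange ℂ)
  map_add' e e' := by
    rw [LinearMap.baseChange_add, mul_add, map_add]
  map_smul' r e := by
    have h1 : (r • e).baseChange ℂ = (algebraMap W.K ℂ r) • e.baseChange ℂ := by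
      rw [LinearMap.baseChange_smul, algebraMap_smul]
    rw [h1, mul_smul_comm, map_smul, RingHom.id_apply, smul_eq_mul, Algebra.smul_def]

theorem yy_trace' (ν : ℂ →ₗ[W.K] W.K) (e : Module.End W.K (W.H X)) :
    LinearMap.trace W.K (W.H X) (yy T X ν * e) = ν (trh T X e) := yy_trace ν e

/-- **The components of the Hodge operator are elements of the Lie algebra of the Tate classes.** -/
theorem yy_gal (A : ArtC W E) (hlog : HasLogs G X)
    (hss : ∀ i, SemisimpleAt G X i)
    (h2 : ∀ c, Pool.Agent.Q55.IsTate G (pw X 1) X.dim c → c ∈ spanCycles E (pw X 1) X.dim)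
    (h4 : ∀ c, Pool.Agent.Q55.IsTate G (pw X 3) (2 * X.dim) c →
      c ∈ Submodule.span E.K (A.a (pw X 3) '' {x | IsHodge T (pw X 3) (2 * X.dim) x}))
    (C : ∀ _ : ℂ ≃+* ℂ, Comparison (baseW W ℂ) (baseW E ℂ))
    (hC : ∀ (τ : ℂ ≃+* ℂ) (z : ℂ), (show ℂ from (C τ).s z) = τ z)
    (hT : ∀ (τ : ℂ ≃+* ℂ) (Y : 𝒱.Obj) (j : ℕ) (c : E.H Y), Pool.Agent.Q55.IsTate G Y j c →
      theta (C τ) T Y (em E ℂ c) = 0) (ν : ℂ →ₗ[W.K] W.K) :
    A.ext (yy T X ν) ∈ gal G X := by
  classical
  obtain ⟨lm, hlam⟩ := exists_retract' E.K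
  obtain ⟨J, s, c, σ, hσ⟩ := exists_auts T.rat (trh T X) ν
  let θ : Module.End E.K (E.H X) :=
    ∑ j ∈ s, cE (lm ∘ₗ LinearMap.mulLeft E.K (c j)) (theta (C (σ j)) T X)
  have hθ : θ ∈ gal G X :=
    Submodule.sum_mem _ fun j _ => theta_gal (C (σ j)) (hT (σ j)) _
  have hkill : KillsAlg E X (A.ext (yy T X ν)) := by
    intro n j z hz
    have h1 := A.kills_ext (yy_kills ν (hh_cl (T := T) hz))
    rw [A.cl _ j z hz, frm_smul] at h1
    have h2 := kills_smul (A.c ^ j)⁻¹ h1
    rwa [smul_smul, inv_mul_cancel₀ (A.cne j), one_smul] at h2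
  have hkill4 : ∀ φ : MultilinearMap E.K (fun _ : Fin 4 => E.H X) E.K,
      TForm G X (2 * X.dim) φ → Kills (A.ext (yy T X ν)) φ := by
    intro φ hφ
    obtain ⟨c, rfl⟩ := frm_surjective (n := 3) φ
    have h1 := h4 c (tate_of_tform (j := 2 * X.dim) (by rw [dim_pw]; ring) hφ)
    clear hφ
    induction h1 using Submodule.span_induction with
    | mem x h =>
      obtain ⟨x, hx, rfl⟩ := h
      exact A.kills_ext (yy_kills ν hx.2)
    | zero =>
      have h1 : frm E X 3 0 = 0 := map_zero (frmL E X 3)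
      rw [h1]
      exact kills_zero
    | add a b _ _ ha hb =>
      rw [frm_add]
      exact kills_add ha hb
    | smul r a _ ha =>
      rw [frm_smul]
      exact kills_smul r ha
  have h1 := mem_galp_of' hlog hss h2 hkill hkill4 hθ (fun z hz e₁ he₁ => by
    obtain ⟨e₀, he₀⟩ := exists_end (W := W) (X := X) (W.cl _ z)
    have h2 : e₁ = A.ext e₀ := A.end_eq (A.cl _ _ z hz) he₀ he₁
    have h3 : ∀ j ∈ s, LinearMap.trace E.K (E.H X)
        (cE (lm ∘ₗ LinearMap.mulLeft E.K (c j)) (theta (C (σ j)) T X) * e₁) =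
          lm (c j * σ j (trh T X e₀)) := by
      intro j _
      have h4 := trace_cmpE_mul (W := E) (lm ∘ₗ LinearMap.mulLeft E.K (c j))
        (theta (C (σ j)) T X) e₁
      have h5 := ep_trace (T := T) (C (σ j)) (c := W.cl _ z) (c' := E.cl _ z)
        ((C (σ j)).cyc hz) he₀ he₁
      have h6 : (show ℂ from LinearMap.trace (baseW E ℂ).K ((baseW E ℂ).H X)
          (theta (C (σ j)) T X * bc ℂ e₁)) = σ j (trh T X e₀) := by
        have h7 := hC (σ j) (trh T X e₀)
        exact h5.trans h7
      have h8 := h4.trans (congrArg (lm ∘ₗ LinearMap.mulLeft E.K (c j)) h6)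
      exact h8
    have h4 : LinearMap.trace E.K (E.H X) (θ * e₁) =
        lm (algebraMap W.K ℂ (ν (trh T X e₀))) := by
      rw [Finset.sum_mul, map_sum, Finset.sum_congr rfl h3, ← map_sum, hσ]
    rw [h4, ← alg_tower (E := E) T.rat, hlam, h2, ← A.ext_mul, A.ext_trace, yy_trace'])
  refine gal_of_galp h1 ?_
  -- the trace
  have h2 : (E.tr X).comp (A.ext (yy T X ν)) = 0 := by
    obtain ⟨b', hb, -⟩ := A.exists_basis (Module.finBasis W.K (W.H X))
    refine b'.ext fun i => ?_
    rw [hb, LinearMap.comp_apply, A.ext_apply, A.tr, LinearMap.zero_apply]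
    have h3 : ∀ x : W.H X, W.tr X (yy T X ν x) = 0 := by
      intro x
      have h4 : ∀ z : (baseW W ℂ).H X, W.tr X (cC ν z) = lam ν ((baseW W ℂ).tr X z) := by
        intro z
        refine base_ind (p := fun z => W.tr X (cC ν z) = lam ν ((baseW W ℂ).tr X z)) ?_ ?_ z
        · intro l x
          rw [cC_smul_em, map_smul, map_smul, em_tr, smul_eq_mul, smul_eq_mul]
          exact (lam_mul_ex ν l _).symm
        · intro a b ha hb
          rw [cC_add, map_add, map_add, ha, hb]
          exact (lam_add ν _ _).symm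
      have h5 := h4 (hh T X (em W ℂ x))
      rw [hh_tr] at h5
      exact h5.trans (lam_zero ν)
    rw [h3, map_zero, mul_zero]
  exact fun x => LinearMap.congr_fun h2 x

theorem proj_a (A : ArtC W E) (i : ℕ) (x : W.H Y) :
    H914.proj (E.isInternal Y) i (A.a Y x) = A.a Y (H914.proj (W.isInternal Y) i x) := by
  refine dg_ind (p := fun x => H914.proj (E.isInternal Y) i (A.a Y x) =
    A.a Y (H914.proj (W.isInternal Y) i x)) ?_ ?_ x
  · intro j x hx
    by_cases hj : j = i
    · subst hj
      rw [proj_same _ hx, proj_same _ (A.gr _ _ _ hx)]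
    · rw [proj_ne _ hx hj, proj_ne _ (A.gr _ _ _ hx) hj, map_zero]
  · intro a b ha hb
    rw [map_add, map_add, ha, hb, map_add, map_add]

/-- The Hodge operator commutes with the projections. -/
theorem hC_proj (i : ℕ) (x : ℂ ⊗[W.K] W.H X) :
    hC T X ((H914.proj (W.isInternal X) i).baseChange ℂ x) =
      (H914.proj (W.isInternal X) i).baseChange ℂ (hC T X x) := by
  have key : ∀ j, ∀ x ∈ (W.gr X j).baseChange ℂ,
      (H914.proj (W.isInternal X) i).baseChange ℂ x = if j = i then x else 0 := by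
    intro j x hx
    refine base_induction (P := fun x => (H914.proj (W.isInternal X) i).baseChange ℂ x =
      if j = i then x else 0) ?_ ?_ ?_ hx
    · rw [map_zero, ite_self]
    · intro x y hx hy
      rw [map_add, hx, hy]
      split_ifs
      · rfl
      · rw [add_zero]
    · intro z a ha
      rw [LinearMap.baseChange_tmul]
      split_ifs with h
      · subst h
        rw [proj_same _ ha]
      · rw [proj_ne _ ha h, TensorProduct.tmul_zero]
  induction x using TensorProduct.induction_on with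
  | zero => rw [map_zero, map_zero, map_zero]
  | add x y hx hy => rw [map_add, map_add, hx, hy, map_add, map_add]
  | tmul z v =>
    refine gr_induction (W.isInternal X) (p := fun v =>
      hC T X ((H914.proj (W.isInternal X) i).baseChange ℂ (z ⊗ₜ[W.K] v)) =
      (H914.proj (W.isInternal X) i).baseChange ℂ (hC T X (z ⊗ₜ[W.K] v))) ?_ ?_ v
    · intro j a ha
      have h1 : z ⊗ₜ[W.K] a ∈ (W.gr X j).baseChange ℂ := Submodule.tmul_mem_baseChange_of_mem _ ha
      rw [key j _ h1, key j _ (hC_gr (T := T) h1)]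
      split_ifs
      · rfl
      · rw [map_zero]
    · intro a b ha hb
      rw [TensorProduct.tmul_add, map_add, map_add, ha, hb, map_add, map_add]

/-- The components of a class killed by the Hodge operator are Hodge classes. -/
theorem proj_hodge {j : ℕ} {x : W.H X} (hx : hh T X (em W ℂ x) = 0) :
    IsHodge T X j (H914.proj (W.isInternal X) (2 * j) x) := by
  refine ⟨proj_mem _ _ _, ?_⟩
  have h1 := hC_proj (T := T) (X := X) (2 * j) ((1 : ℂ) ⊗ₜ[W.K] x)
  have h2 : hC T X ((1 : ℂ) ⊗ₜ[W.K] x) = 0 := hx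
  rw [h2, map_zero, LinearMap.baseChange_tmul] at h1
  exact h1

/-- **Every Tate class on every power is a combination of Hodge classes.** -/
theorem tate_mem_span (A : ArtC W E) (hlog : HasLogs G X)
    (hss : ∀ i, SemisimpleAt G X i)
    (h2 : ∀ c, Pool.Agent.Q55.IsTate G (pw X 1) X.dim c → c ∈ spanCycles E (pw X 1) X.dim)
    (h4 : ∀ c, Pool.Agent.Q55.IsTate G (pw X 3) (2 * X.dim) c →
      c ∈ Submodule.span E.K (A.a (pw X 3) '' {x | IsHodge T (pw X 3) (2 * X.dim) x}))
    (C : ∀ _ : ℂ ≃+* ℂ, Comparison (baseW W ℂ) (baseW E ℂ))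
    (hC : ∀ (τ : ℂ ≃+* ℂ) (z : ℂ), (show ℂ from (C τ).s z) = τ z)
    (hT : ∀ (τ : ℂ ≃+* ℂ) (Y : 𝒱.Obj) (j : ℕ) (c : E.H Y), Pool.Agent.Q55.IsTate G Y j c →
      theta (C τ) T Y (em E ℂ c) = 0) (n j : ℕ) (c : E.H (pw X n))
    (hc : Pool.Agent.Q55.IsTate G (pw X n) j c) :
    c ∈ Submodule.span E.K (A.a (pw X n) '' {x | IsHodge T (pw X n) j x}) := by
  by_cases hj : j ≤ (pw X n).dim
  · have h1 : ∀ ν : ℂ →ₗ[W.K] W.K, Kills (A.ext (yy T X ν)) (frm E X n c) := fun ν =>
      gal_kills (tform_of_tate (M := (pw X n).dim - j) (by omega) hc)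
        (yy_gal A hlog hss h2 h4 C hC hT ν)
    have h2 := A.mem_span (yy T X) h1
    have h3 : H914.proj (E.isInternal (pw X n)) (2 * j) c = c := proj_same _ hc.1
    rw [← h3]
    have h4 : Submodule.span E.K
        (A.a _ '' {c' | ∀ ν, Kills (yy T X ν) (frm W X n c')}) ≤
        (Submodule.span E.K (A.a (pw X n) '' {x | IsHodge T (pw X n) j x})).comap
          (H914.proj (E.isInternal (pw X n)) (2 * j)) := by
      rw [Submodule.span_le]
      rintro _ ⟨c', hc', rfl⟩
      have h5 : hh T _ (em W ℂ c') = 0 := hh_of_kills hc'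
      change H914.proj (E.isInternal (pw X n)) (2 * j) (A.a _ c') ∈
        Submodule.span E.K (A.a (pw X n) '' {x | IsHodge T (pw X n) j x})
      rw [proj_a A]
      exact Submodule.subset_span ⟨_, proj_hodge h5, rfl⟩
    exact h4 h2
  · have h1 := hc.1
    rw [E.gr_eq_bot _ _ (by omega), Submodule.mem_bot] at h1
    rw [h1]
    exact Submodule.zero_mem _

end Pool.Agent.Q50.MTC
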