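import Pool.Agent.Q50.MTC.Hd
import Pool.Agent.Q50.FP.HT
import Pool.Agent.Q50.FP.GCore

/-!
# The transport of the Hodge operator by a comparison isomorphism
-/

open CategoryTheory AlgebraicGeometry TensorProduct

universe u

set_option linter.unusedSectionVars false

namespace Pool.Agent.Q50.MTC

open Module Pool.Agent.H204R3.SP Pool.Agent.W516.DR
open Pool.Agent.H914 Pool.Agent.H914.VarClass Pool.Agent.H914.VarClass.Obj
  Pool.Agent.H914.WeilCohomology
open Pool.Agent.Y133.Half Pool.Agent.Y121.AH Pool.Agent.Q50.FP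

variable {k : Type u} [Field k] {𝒱 : VarClass k} {ops : CycleOps 𝒱}
  {W E : WeilCohomology.{u, 0} ops} [Algebra W.K ℂ] {T : HodgeDecomposition W} {X Y : 𝒱.Obj}
  {n : ℕ} [Algebra E.K ℂ] (C : Comparison (baseW W ℂ) (baseW E ℂ))

theorem cmp_symm_smul (Y : 𝒱.Obj) (r : (baseW E ℂ).K) (x : (baseW E ℂ).H Y) :
    (C.e Y).symm (r • x) = C.s.symm r • (C.e Y).symm x := by
  apply (C.e Y).injective
  rw [(C.e Y).apply_symm_apply, C.semi, C.s.apply_symm_apply, (C.e Y).apply_symm_apply]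

/-- The transported Hodge operator. -/
noncomputable def theta (T : HodgeDecomposition W) (Y : 𝒱.Obj) :
    Module.End (baseW E ℂ).K ((baseW E ℂ).H Y) where
  toFun x := C.e Y (hh T Y ((C.e Y).symm x))
  map_add' x y := by rw [map_add, map_add, map_add]
  map_smul' r x := by
    rw [cmp_symm_smul, map_smul, C.semi, C.s.apply_symm_apply]
    rfl

theorem theta_apply (Y : 𝒱.Obj) (x : (baseW W ℂ).H Y) :
    theta C T Y (C.e Y x) = C.e Y (hh T Y x) := by
  change C.e Y (hh T Y ((C.e Y).symm (C.e Y x))) = _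
  rw [(C.e Y).symm_apply_apply]

theorem theta_drv : Drv (baseW E ℂ) (theta C T) 0 where
  mul Y x y := by
    obtain ⟨x, rfl⟩ := (C.e Y).surjective x
    obtain ⟨y, rfl⟩ := (C.e Y).surjective y
    rw [← map_mul, theta_apply, theta_apply, theta_apply, (hh_drv T).mul, map_add, map_mul,
      map_mul]
  map {Y Z} f z := by
    obtain ⟨z, rfl⟩ := (C.e Z).surjective z
    rw [theta_apply, ← C.nat, theta_apply, (hh_drv T).map, C.nat]
  tr Y x := by
    obtain ⟨x, rfl⟩ := (C.e Y).surjective x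
    rw [theta_apply, C.tr, hh_tr, map_zero, mul_zero, zero_mul, zero_mul]

theorem cmp_mpr (v : Fin (n + 1) → (baseW W ℂ).H X) :
    C.e (pw X n) (mpr (baseW W ℂ) X n v) = mpr (baseW E ℂ) X n (fun i => C.e X (v i)) := by
  rw [mpr_apply, mpr_apply, map_list_prod, List.map_ofFn]
  congr 2
  funext i
  exact C.nat _ _

/-- The rational classes `c` and `c'` of degree `2 dim X` on `X ^ 2` correspond to each other. -/
def Corr (c : W.H (pw X 1)) (c' : E.H (pw X 1)) : Prop :=
  C.e (pw X 1) (em W ℂ c) = C.c ^ X.dim • em E ℂ c'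

theorem Corr.zero : Corr C (0 : W.H (pw X 1)) 0 := by
  unfold Corr
  rw [em_zero, em_zero, map_zero, smul_zero]

theorem Corr.add {c d : W.H (pw X 1)} {c' d' : E.H (pw X 1)} (h1 : Corr C c c')
    (h2 : Corr C d d') : Corr C (c + d) (c' + d') := by
  unfold Corr at *
  rw [em_add, em_add, map_add, h1, h2, smul_add]

theorem Corr.smul {c : W.H (pw X 1)} {c' : E.H (pw X 1)} (h1 : Corr C c c') (q : ℚ) :
    Corr C ((q : W.K) • c) ((q : E.K) • c') := by
  unfold Corr at *
  rw [em_smul, em_smul, C.semi, h1, smul_comm]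
  congr 1
  have h2 : ex W ℂ (q : W.K) = (q : (baseW W ℂ).K) := map_ratCast (algebraMap W.K ℂ) q
  have h3 : ex E ℂ (q : E.K) = (q : (baseW E ℂ).K) := map_ratCast (algebraMap E.K ℂ) q
  rw [h2, h3, map_ratCast]

theorem ep_trace {e₀ : Module.End W.K (W.H X)} {e₁ : Module.End E.K (E.H X)}
    {c : W.H (pw X 1)} {c' : E.H (pw X 1)} (hc : Corr C c c')
    (h0 : ∀ v, frm W X 1 c v = prg W X (e₀ (v 0)) (v 1))
    (h1 : ∀ v, frm E X 1 c' v = prg E X (e₁ (v 0)) (v 1)) :
    LinearMap.trace (baseW E ℂ).K ((baseW E ℂ).H X) (theta C T X * bc ℂ e₁) =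
      C.s (LinearMap.trace (baseW W ℂ).K ((baseW W ℂ).H X) (hh T X * bc ℂ e₀)) := by
  -- the two endomorphisms correspond to each other
  have key : ∀ u : (baseW W ℂ).H X, bc ℂ e₁ (C.e X u) = C.e X (bc ℂ e₀ u) := by
    intro u
    rw [← sub_eq_zero]
    apply prg_nondeg
    intro v
    obtain ⟨v, rfl⟩ := (C.e X).surjective v
    rw [map_sub, LinearMap.sub_apply, sub_eq_zero]
    have h2 := base_end (L := ℂ) h0 ![u, v]
    have h3 := base_end (L := ℂ) h1 ![C.e X u, C.e X v]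
    have h4 : (![C.e X u, C.e X v] : Fin 2 → (baseW E ℂ).H X) = fun i => C.e X (![u, v] i) := by
      funext i
      fin_cases i <;> rfl
    change frm (baseW W ℂ) X 1 _ _ = prg (baseW W ℂ) X (bc ℂ e₀ u) v at h2
    change frm (baseW E ℂ) X 1 _ _ = prg (baseW E ℂ) X (bc ℂ e₁ (C.e X u)) (C.e X v) at h3
    rw [← h3, prg_apply, ← map_mul, C.tr, ← prg_apply, ← h2, h4, frm_apply, frm_apply]
    have h6 := C.tr (pw X 1) (em W ℂ c * mpr (baseW W ℂ) X 1 ![u, v])
    have h5 : C.e (pw X 1) (em W ℂ c) = C.c ^ X.dim • em E ℂ c' := hc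
    rw [map_mul, h5, cmp_mpr, smul_mul_assoc, map_smul, smul_eq_mul, dim_pw, two_dim,
      pow_add, mul_assoc] at h6
    exact mul_left_cancel₀ (pow_ne_zero _ C.ne) h6
  refine semi_trace C.s (C.e X).toAddEquiv (C.semi X) ?_
  intro x
  change theta C T X (bc ℂ e₁ (C.e X x)) = C.e X (hh T X (bc ℂ e₀ x))
  rw [key, theta_apply]

end Pool.Agent.Q50.MTC
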